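import Mathlib

/-! # Complete quotients and partial quotients of a real number -/

open Filter Topology

namespace Pool.Agent.N759.CFr

/-- complete quotients of `α`: `cq α 0 = α`, `cq α (k+1) = 1 / {cq α k}` -/
noncomputable def cq (α : ℝ) : ℕ → ℝ
  | 0 => α
  | k + 1 => (Int.fract (cq α k))⁻¹

/-- partial quotients of `α` (the digits of its continued fraction) -/
noncomputable def pq (α : ℝ) (k : ℕ) : ℤ := ⌊cq α k⌋

lemma cq_zero (α : ℝ) : cq α 0 = α := rfl

lemma cq_succ (α : ℝ) (k : ℕ) : cq α (k + 1) = (Int.fract (cq α k))⁻¹ := rfl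

lemma cq_add (α : ℝ) (i k : ℕ) : cq α (i + k) = cq (cq α i) k := by
  induction k with
  | zero => rfl
  | succ k ih => rw [← Nat.add_assoc, cq_succ, cq_succ, ih]

lemma pq_add (α : ℝ) (i k : ℕ) : pq α (i + k) = pq (cq α i) k := by
  rw [pq, pq, cq_add]

lemma irr_fract {x : ℝ} (h : Irrational x) : Irrational (Int.fract x) := by
  have h1 : Int.fract x = x - (⌊x⌋ : ℤ) := rfl
  rw [h1]
  exact h.sub_intCast _

lemma irr_cq {α : ℝ} (h : Irrational α) (k : ℕ) : Irrational (cq α k) := by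
  induction k with
  | zero => exact h
  | succ k ih => rw [cq_succ]; exact (irr_fract ih).inv

lemma fract_pos_of_irr {x : ℝ} (h : Irrational x) : 0 < Int.fract x :=
  lt_of_le_of_ne (Int.fract_nonneg x) (irr_fract h).ne_zero.symm

lemma one_lt_cq {α : ℝ} (h : Irrational α) (k : ℕ) : 1 < cq α (k + 1) := by
  rw [cq_succ]
  exact (one_lt_inv₀ (fract_pos_of_irr (irr_cq h k))).2 (Int.fract_lt_one _)

lemma one_lt_cq' {α : ℝ} (h : Irrational α) {k : ℕ} (hk : 1 ≤ k) : 1 < cq α k := by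
  obtain ⟨j, rfl⟩ := Nat.exists_eq_add_of_le' hk
  exact one_lt_cq h j

lemma cq_eq {α : ℝ} (k : ℕ) : cq α k = pq α k + (cq α (k + 1))⁻¹ := by
  rw [cq_succ, inv_inv, pq]
  exact (Int.floor_add_fract _).symm

lemma one_le_pq {α : ℝ} (h : Irrational α) (k : ℕ) : 1 ≤ pq α (k + 1) := by
  rw [pq, Int.le_floor]
  exact_mod_cast (one_lt_cq h k).le

lemma pq_le_cq (α : ℝ) (k : ℕ) : (pq α k : ℝ) ≤ cq α k := Int.floor_le _

lemma cq_mul {α : ℝ} (h : Irrational α) (k : ℕ) :
    cq α k * cq α (k + 1) = pq α k * cq α (k + 1) + 1 := by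
  have h0 : (0 : ℝ) < cq α (k + 1) := by linarith [one_lt_cq h k]
  conv_lhs => rw [cq_eq k]
  rw [add_mul, inv_mul_cancel₀ h0.ne']

lemma two_le_mul {α : ℝ} (h : Irrational α) (k : ℕ) :
    2 ≤ cq α (k + 1) * cq α (k + 2) := by
  rw [cq_mul h (k + 1)]
  have h1 : (1 : ℝ) ≤ pq α (k + 1) := by exact_mod_cast one_le_pq h k
  have h2 := one_lt_cq h (k + 1)
  nlinarith

/-- products of complete quotients -/
noncomputable def pr (α : ℝ) (k : ℕ) : ℝ := ∏ r ∈ Finset.range k, cq α (r + 1)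

lemma pr_zero (α : ℝ) : pr α 0 = 1 := by simp [pr]

lemma pr_succ (α : ℝ) (k : ℕ) : pr α (k + 1) = pr α k * cq α (k + 1) := by
  rw [pr, Finset.prod_range_succ]; rfl

lemma pr_pos {α : ℝ} (h : Irrational α) (k : ℕ) : 0 < pr α k :=
  Finset.prod_pos fun r _ => by linarith [one_lt_cq h r]

lemma one_le_pr {α : ℝ} (h : Irrational α) (k : ℕ) : 1 ≤ pr α k := by
  induction k with
  | zero => rw [pr_zero]
  | succ k ih =>
    rw [pr_succ]
    nlinarith [one_lt_cq h k]

lemma pow_le_pr {α : ℝ} (h : Irrational α) (k : ℕ) : (2 : ℝ) ^ k ≤ pr α (2 * k) := by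
  induction k with
  | zero => simp [pr_zero]
  | succ k ih =>
    have h1 : 2 * (k + 1) = 2 * k + 1 + 1 := by ring
    rw [h1, pr_succ, pr_succ, mul_assoc, pow_succ]
    have h2 := two_le_mul h (2 * k)
    have h3 := pr_pos h (2 * k)
    have h4 : (0 : ℝ) < 2 ^ k := by positivity
    calc (2 : ℝ) ^ k * 2 ≤ pr α (2 * k) * 2 := by nlinarith
      _ ≤ pr α (2 * k) * (cq α (2 * k + 1) * cq α (2 * k + 1 + 1)) := by
          exact mul_le_mul_of_nonneg_left h2 h3.le

lemma pr_mono {α : ℝ} (h : Irrational α) : Monotone (pr α) := by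
  refine monotone_nat_of_le_succ fun k => ?_
  rw [pr_succ]
  nlinarith [pr_pos h k, one_lt_cq h k]

lemma pr_add (α : ℝ) (i k : ℕ) : pr α (i + k) = pr α i * pr (cq α i) k := by
  rw [pr, Finset.prod_range_add]
  congr 1
  refine Finset.prod_congr rfl fun r _ => ?_
  rw [Nat.add_assoc, cq_add]

/-- two numbers with a common initial block are close -/
lemma diff_eq {x y : ℝ} (hx : Irrational x) (hy : Irrational y) (m : ℕ)
    (h : ∀ r < m, pq x r = pq y r) :
    |x - y| * (pr x m * pr y m) = |cq x m - cq y m| := by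
  induction m with
  | zero => simp [pr_zero, cq_zero]
  | succ m ih =>
    have h1 := ih fun r hr => h r (by omega)
    have hx0 : (0 : ℝ) < cq x (m + 1) := by linarith [one_lt_cq hx m]
    have hy0 : (0 : ℝ) < cq y (m + 1) := by linarith [one_lt_cq hy m]
    have h2 : cq x m - cq y m = (cq x (m + 1))⁻¹ - (cq y (m + 1))⁻¹ := by
      rw [cq_eq (α := x) m, cq_eq (α := y) m, h m (by omega)]; ring
    have h3 : (cq x (m + 1))⁻¹ - (cq y (m + 1))⁻¹
        = (cq y (m + 1) - cq x (m + 1)) / (cq x (m + 1) * cq y (m + 1)) := by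
      field_simp
    rw [h2, h3, abs_div, abs_of_pos (mul_pos hx0 hy0), abs_sub_comm (cq y (m + 1))] at h1
    rw [pr_succ, pr_succ]
    calc |x - y| * (pr x m * cq x (m + 1) * (pr y m * cq y (m + 1)))
        = |x - y| * (pr x m * pr y m) * (cq x (m + 1) * cq y (m + 1)) := by ring
      _ = _ := by rw [h1]; field_simp

lemma abs_sub_lt_one {x y : ℝ} (h : ⌊x⌋ = ⌊y⌋) : |x - y| < 1 :=
  Int.abs_sub_lt_one_of_floor_eq_floor h

lemma diff_le {x y : ℝ} (hx : Irrational x) (hy : Irrational y) (m : ℕ)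
    (h : ∀ r < 2 * m + 1, pq x r = pq y r) : |x - y| ≤ (1 / 2) ^ m := by
  have h1 := diff_eq hx hy (2 * m) fun r hr => h r (by omega)
  have h2 := abs_sub_lt_one (h (2 * m) (by omega))
  rw [← h1] at h2
  have h3 := pow_le_pr hx m
  have h4 := one_le_pr hy (2 * m)
  have h5 : (2 : ℝ) ^ m ≤ pr x (2 * m) * pr y (2 * m) := by
    have : (0 : ℝ) < 2 ^ m := by positivity
    nlinarith
  have h6 : |x - y| * 2 ^ m < 1 :=
    lt_of_le_of_lt (mul_le_mul_of_nonneg_left h5 (abs_nonneg _)) h2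
  rw [one_div, inv_pow, ← one_div, le_div_iff₀ (by positivity)]
  exact h6.le

/-! ### Local bases -/

/-- the integer matrices of the local changes of basis -/
noncomputable def CC (α : ℝ) : ℕ → Matrix (Fin 2) (Fin 2) ℤ
  | 0 => 1
  | k + 1 => CC α k * !![0, 1; 1, -(pq α k)]

lemma CC_succ (α : ℝ) (k : ℕ) : CC α (k + 1) = CC α k * !![0, 1; 1, -(pq α k)] := rfl

lemma det_CC (α : ℝ) (k : ℕ) : |(CC α k).det| = 1 := by
  induction k with
  | zero => simp [CC]
  | succ k ih => rw [CC_succ, Matrix.det_mul, abs_mul, ih, Matrix.det_fin_two_of]; simp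

lemma det_CC_ne (α : ℝ) (k : ℕ) : (CC α k).det ≠ 0 := by
  intro h
  have := det_CC α k
  rw [h] at this
  simp at this

/-- the bounding sequence (essentially the denominators of the convergents) -/
noncomputable def BB (α : ℝ) : ℕ → ℝ
  | 0 => 1
  | 1 => 1
  | k + 2 => pq α (k + 1) * BB α (k + 1) + BB α k

lemma BB_pos {α : ℝ} (h : Irrational α) (k : ℕ) : 0 < BB α k := by
  induction k using Nat.strong_induction_on with
  | _ k ih =>
    match k with
    | 0 => simp [BB]
    | 1 => simp [BB]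
    | k + 2 =>
      rw [BB]
      have h1 : (1 : ℝ) ≤ pq α (k + 1) := by exact_mod_cast one_le_pq h k
      have h2 := ih (k + 1) (by omega)
      have h3 := ih k (by omega)
      nlinarith

lemma BB_le_succ {α : ℝ} (h : Irrational α) (k : ℕ) : BB α k ≤ BB α (k + 1) := by
  match k with
  | 0 => simp [BB]
  | k + 1 =>
    rw [show k + 1 + 1 = k + 2 from rfl, BB]
    have h1 : (1 : ℝ) ≤ pq α (k + 1) := by exact_mod_cast one_le_pq h k
    have h2 := BB_pos h (k + 1)
    have h3 := BB_pos h k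
    nlinarith

lemma BB_mono {α : ℝ} (h : Irrational α) : Monotone (BB α) :=
  monotone_nat_of_le_succ (BB_le_succ h)

/-- the local second coordinate of a vector `(u, v)` -/
noncomputable def lv (α : ℝ) (u v : ℝ) : ℕ → ℝ
  | 0 => v
  | 1 => u - pq α 0 * v
  | k + 2 => lv α u v k - pq α (k + 1) * lv α u v (k + 1)

/-- the local first coordinate of a vector `(u, v)` -/
noncomputable def lu (α : ℝ) (u v : ℝ) : ℕ → ℝ
  | 0 => u
  | k + 1 => lv α u v k

lemma lv_succ (α u v : ℝ) (k : ℕ) : lv α u v (k + 1) = lu α u v k - pq α k * lv α u v k := by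
  match k with
  | 0 => simp [lv, lu]
  | k + 1 => rw [show k + 1 + 1 = k + 2 from rfl, lv]; rfl

lemma lu_succ (α u v : ℝ) (k : ℕ) : lu α u v (k + 1) = lv α u v k := rfl

lemma loc_eq (α u v : ℝ) (k : ℕ) :
    u * (CC α k 0 0 : ℝ) + v * (CC α k 1 0 : ℝ) = lu α u v k ∧
    u * (CC α k 0 1 : ℝ) + v * (CC α k 1 1 : ℝ) = lv α u v k := by
  induction k with
  | zero => simp [CC, lu, lv]
  | succ k ih =>
    obtain ⟨h1, h2⟩ := ih
    rw [CC_succ, lu_succ, lv_succ, ← h1, ← h2]
    simp [Matrix.mul_apply, Fin.sum_univ_two]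
    ring

/-- growth of the local coordinates of an arbitrary vector -/
lemma abs_lv_le {α : ℝ} (h : Irrational α) (u v : ℝ) (k : ℕ) :
    |lv α u v k| ≤ (|v| + |u - pq α 0 * v|) * BB α k := by
  induction k using Nat.strong_induction_on with
  | _ k ih =>
    match k with
    | 0 => simp only [lv, BB, mul_one]; linarith [abs_nonneg (u - pq α 0 * v)]
    | 1 => simp only [lv, BB, mul_one]; linarith [abs_nonneg v]
    | k + 2 =>
      rw [lv, BB]
      have h1 : (1 : ℝ) ≤ pq α (k + 1) := by exact_mod_cast one_le_pq h k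
      have h2 := ih (k + 1) (by omega)
      have h3 := ih k (by omega)
      have h4 := abs_sub (lv α u v k) (pq α (k + 1) * lv α u v (k + 1))
      have h5 : |(pq α (k + 1) : ℝ) * lv α u v (k + 1)| = pq α (k + 1) * |lv α u v (k + 1)| := by
        rw [abs_mul, abs_of_nonneg (by linarith)]
      nlinarith

lemma abs_lu_le {α : ℝ} (h : Irrational α) (u v : ℝ) (k : ℕ) :
    |lu α u v (k + 1)| ≤ (|v| + |u - pq α 0 * v|) * BB α (k + 1) := by
  rw [lu_succ]
  refine (abs_lv_le h u v k).trans ?_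
  exact mul_le_mul_of_nonneg_left (BB_le_succ h k) (by positivity)

/-- local coordinates of a multiple of `(α, 1)` -/
lemma lu_eq {α : ℝ} (h : Irrational α) (v : ℝ) (k : ℕ) :
    lu α (α * v) v k = cq α k * lv α (α * v) v k := by
  induction k with
  | zero => simp [lu, lv, cq]
  | succ k ih =>
    have h0 : (0 : ℝ) < cq α (k + 1) := by linarith [one_lt_cq h k]
    rw [lu_succ, lv_succ, ih]
    have h1 : cq α k - pq α k = (cq α (k + 1))⁻¹ := by rw [cq_eq (α := α) k]; ring
    rw [← sub_mul, h1, ← mul_assoc, mul_inv_cancel₀ h0.ne', one_mul]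

lemma lv_eq {α : ℝ} (h : Irrational α) (v : ℝ) (k : ℕ) :
    lv α (α * v) v k = v / pr α k := by
  induction k with
  | zero => simp [lv, pr_zero]
  | succ k ih =>
    have h0 : (0 : ℝ) < cq α (k + 1) := by linarith [one_lt_cq h k]
    have hp := pr_pos h k
    have h1 : cq α k - pq α k = (cq α (k + 1))⁻¹ := by rw [cq_eq (α := α) k]; ring
    rw [lv_succ, lu_eq h, ← sub_mul, h1, ih, pr_succ]
    field_simp

/-- the key relation between the bounding sequence and the complete quotients -/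
lemma BB_rel {α : ℝ} (h : Irrational α) (k : ℕ) :
    BB α (k + 1) * cq α (k + 1) + BB α k = (cq α 1 + 1) / cq α 1 * pr α (k + 1) := by
  induction k with
  | zero =>
    have h0 : (0 : ℝ) < cq α 1 := by linarith [one_lt_cq h 0]
    simp only [BB, pr_succ, pr_zero, zero_add]
    field_simp
  | succ k ih =>
    have h0 : (0 : ℝ) < cq α (k + 2) := by linarith [one_lt_cq h (k + 1)]
    rw [pr_succ, ← mul_assoc, ← ih, show k + 1 + 1 = k + 2 from rfl, BB]
    conv_rhs => rw [cq_eq (α := α) (k + 1)]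
    field_simp
    ring

lemma BB_mul_le {α : ℝ} (h : Irrational α) (k : ℕ) :
    BB α (k + 1) * cq α (k + 1) ≤ 2 * pr α (k + 1) := by
  have h1 := BB_rel h k
  have h2 := BB_pos h k
  have h3 := pr_pos h (k + 1)
  have h4 := one_lt_cq h 0
  have h5 : (cq α 1 + 1) / cq α 1 ≤ 2 := by
    rw [div_le_iff₀ (by linarith)]; linarith
  nlinarith

/-- the fundamental estimate -/
lemma key_le {α : ℝ} (h : Irrational α) (v : ℝ) (k : ℕ) :
    |lv α (α * v) v (k + 1)| * (BB α (k + 1) * cq α (k + 1)) ≤ 2 * |v| := by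
  rw [lv_eq h, abs_div, abs_of_pos (pr_pos h _), div_mul_eq_mul_div,
    div_le_iff₀ (pr_pos h _)]
  have := mul_le_mul_of_nonneg_left (BB_mul_le h k) (abs_nonneg v)
  linarith

end Pool.Agent.N759.CFr
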