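import Mathlib

/-! # Coefficients of powers of quadratic polynomials -/

open Polynomial

namespace Pool.Agent.N759.CFr

/-- distance of exponents -/
def ad (i m : ℕ) : ℕ := ((i : ℤ) - m).natAbs

lemma ad_le_succ_left (i m : ℕ) : ad i (m + 1) ≤ ad i m + 1 := by unfold ad; omega

lemma coeff_quad_mul (q0 q1 q2 : ℝ) (f : ℝ[X]) (i : ℕ) :
    ((C q0 * X ^ 2 + C q1 * X + C q2) * f).coeff i
      = q0 * (if 2 ≤ i then f.coeff (i - 2) else 0) + q1 * (if 1 ≤ i then f.coeff (i - 1) else 0)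
        + q2 * f.coeff i := by
  rw [add_mul, add_mul, coeff_add, coeff_add, mul_assoc, mul_assoc, coeff_C_mul, coeff_C_mul,
    coeff_C_mul, mul_comm (X ^ 2) f, mul_comm X f, coeff_mul_X_pow']
  congr 2
  rcases Nat.eq_zero_or_pos i with h | h
  · subst h; simp
  · obtain ⟨j, rfl⟩ := Nat.exists_eq_add_of_le' h
    simp [coeff_mul_X]

/-- majorant of the coefficients of a power of a quadratic polynomial -/
lemma coeff_pow_le {q0 q1 q2 b θ σ : ℝ} (hb : 0 < b) (hθ : 0 < θ) (hθ1 : θ ≤ 1) (hσ : 0 < σ)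
    (h0 : |q0| ≤ b * θ * σ) (h1 : |q1| ≤ b) (h2 : |q2| ≤ b * θ / σ) (m i : ℕ) :
    |((C q0 * X ^ 2 + C q1 * X + C q2 : ℝ[X]) ^ m).coeff i|
      ≤ (3 * b) ^ m * θ ^ ad i m * σ ^ ((i : ℤ) - m) := by
  induction m generalizing i with
  | zero =>
    rw [pow_zero, coeff_one]
    split_ifs with h
    · subst h; simp [ad]
    · simp only [abs_zero]; positivity
  | succ m ih =>
    rw [pow_succ', coeff_quad_mul]
    have hpos : 0 < (3 * b) ^ m := by positivity
    have t0 : |q0 * (if 2 ≤ i then ((C q0 * X ^ 2 + C q1 * X + C q2 : ℝ[X]) ^ m).coeff (i - 2) else 0)|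
        ≤ b * ((3 * b) ^ m * θ ^ ad i (m + 1) * σ ^ ((i : ℤ) - (m + 1))) := by
      split_ifs with h
      · rw [abs_mul]
        calc |q0| * |((C q0 * X ^ 2 + C q1 * X + C q2 : ℝ[X]) ^ m).coeff (i - 2)|
            ≤ (b * θ * σ) * ((3 * b) ^ m * θ ^ ad (i - 2) m * σ ^ (((i - 2 : ℕ) : ℤ) - m)) :=
              mul_le_mul h0 (ih _) (abs_nonneg _) (by positivity)
          _ = b * ((3 * b) ^ m * θ ^ (ad (i - 2) m + 1) * σ ^ ((i : ℤ) - (m + 1))) := by
              have e1 : ((i : ℤ) - (m + 1)) = (((i - 2 : ℕ) : ℤ) - m) + 1 := by omega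
              rw [e1, zpow_add₀ hσ.ne', zpow_one, pow_succ]
              ring
          _ ≤ _ := by
              have e2 : ad i (m + 1) ≤ ad (i - 2) m + 1 := by unfold ad; omega
              have e3 : θ ^ (ad (i - 2) m + 1) ≤ θ ^ ad i (m + 1) :=
                pow_le_pow_of_le_one hθ.le hθ1 e2
              gcongr
      · rw [mul_zero, abs_zero]; positivity
    have t1 : |q1 * (if 1 ≤ i then ((C q0 * X ^ 2 + C q1 * X + C q2 : ℝ[X]) ^ m).coeff (i - 1) else 0)|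
        ≤ b * ((3 * b) ^ m * θ ^ ad i (m + 1) * σ ^ ((i : ℤ) - (m + 1))) := by
      split_ifs with h
      · rw [abs_mul]
        calc |q1| * |((C q0 * X ^ 2 + C q1 * X + C q2 : ℝ[X]) ^ m).coeff (i - 1)|
            ≤ b * ((3 * b) ^ m * θ ^ ad (i - 1) m * σ ^ (((i - 1 : ℕ) : ℤ) - m)) :=
              mul_le_mul h1 (ih _) (abs_nonneg _) (by positivity)
          _ = _ := by
              have e1 : (((i - 1 : ℕ) : ℤ) - m) = ((i : ℤ) - (m + 1)) := by omega
              have e2 : ad (i - 1) m = ad i (m + 1) := by unfold ad; omega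
              rw [e1, e2]
      · rw [mul_zero, abs_zero]; positivity
    have t2 : |q2 * ((C q0 * X ^ 2 + C q1 * X + C q2 : ℝ[X]) ^ m).coeff i|
        ≤ b * ((3 * b) ^ m * θ ^ ad i (m + 1) * σ ^ ((i : ℤ) - (m + 1))) := by
      rw [abs_mul]
      calc |q2| * |((C q0 * X ^ 2 + C q1 * X + C q2 : ℝ[X]) ^ m).coeff i|
          ≤ (b * θ / σ) * ((3 * b) ^ m * θ ^ ad i m * σ ^ ((i : ℤ) - m)) :=
            mul_le_mul h2 (ih _) (abs_nonneg _) (by positivity)
        _ = b * ((3 * b) ^ m * θ ^ (ad i m + 1) * σ ^ ((i : ℤ) - (m + 1))) := by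
            have e1 : ((i : ℤ) - (m + 1)) = ((i : ℤ) - m) + (-1) := by omega
            rw [e1, zpow_add₀ hσ.ne', zpow_neg_one, pow_succ, div_eq_mul_inv]
            ring
        _ ≤ _ := by
            have e2 : ad i (m + 1) ≤ ad i m + 1 := by unfold ad; omega
            have e3 : θ ^ (ad i m + 1) ≤ θ ^ ad i (m + 1) := pow_le_pow_of_le_one hθ.le hθ1 e2
            gcongr
    have hsum := abs_add_three
      (q0 * (if 2 ≤ i then ((C q0 * X ^ 2 + C q1 * X + C q2 : ℝ[X]) ^ m).coeff (i - 2) else 0))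
      (q1 * (if 1 ≤ i then ((C q0 * X ^ 2 + C q1 * X + C q2 : ℝ[X]) ^ m).coeff (i - 1) else 0))
      (q2 * ((C q0 * X ^ 2 + C q1 * X + C q2 : ℝ[X]) ^ m).coeff i)
    have hcast : ((m + 1 : ℕ) : ℤ) = (m : ℤ) + 1 := by push_cast; ring
    rw [hcast]
    calc _ ≤ _ := hsum
      _ ≤ b * ((3 * b) ^ m * θ ^ ad i (m + 1) * σ ^ ((i : ℤ) - (m + 1)))
          + b * ((3 * b) ^ m * θ ^ ad i (m + 1) * σ ^ ((i : ℤ) - (m + 1)))
          + b * ((3 * b) ^ m * θ ^ ad i (m + 1) * σ ^ ((i : ℤ) - (m + 1))) := by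
          linarith
      _ = _ := by rw [pow_succ (3 * b) m]; ring

lemma prod_theta (θ : ℝ) (m : ℕ) :
    ∏ i ∈ Finset.range (2 * m + 1), θ ^ ad i m = θ ^ (m * (m + 1)) := by
  rw [Finset.prod_pow_eq_pow_sum]
  congr 1
  have h1 : 2 * m + 1 = m + (m + 1) := by ring
  rw [h1, Finset.sum_range_add]
  have h2 : ∑ i ∈ Finset.range m, ad i m = ∑ i ∈ Finset.range (m + 1), i := by
    rw [← Finset.sum_range_reflect (fun i => i) (m + 1)]
    rw [Finset.sum_range_succ]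
    simp only [Nat.add_sub_cancel, Nat.sub_self, add_zero]
    refine Finset.sum_congr rfl fun i hi => ?_
    rw [Finset.mem_range] at hi
    unfold ad; omega
  have h3 : ∑ i ∈ Finset.range (m + 1), ad (m + i) m = ∑ i ∈ Finset.range (m + 1), i := by
    refine Finset.sum_congr rfl fun i _ => ?_
    unfold ad; omega
  rw [h2, h3]
  have h4 := Finset.sum_range_id_mul_two (m + 1)
  simp only [Nat.add_sub_cancel] at h4
  rw [mul_comm m (m + 1), ← h4]
  ring

lemma prod_sigma {σ : ℝ} (hσ : 0 < σ) (m : ℕ) :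
    ∏ i ∈ Finset.range (2 * m + 1), σ ^ ((i : ℤ) - m) = 1 := by
  have h1 : (∏ i ∈ Finset.range (2 * m + 1), σ ^ ((i : ℤ) - m)) ^ 2 = 1 := by
    rw [sq]
    nth_rewrite 2 [← Finset.prod_range_reflect]
    rw [← Finset.prod_mul_distrib]
    refine Finset.prod_eq_one fun i hi => ?_
    rw [Finset.mem_range] at hi
    rw [← zpow_add₀ hσ.ne']
    have : ((i : ℤ) - m) + (((2 * m + 1 - 1 - i : ℕ) : ℤ) - m) = 0 := by omega
    rw [this, zpow_zero]
  have h2 : 0 ≤ ∏ i ∈ Finset.range (2 * m + 1), σ ^ ((i : ℤ) - m) :=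
    Finset.prod_nonneg fun i _ => by positivity
  exact (pow_eq_one_iff_of_nonneg h2 two_ne_zero).1 h1

/-- the product of the coefficients, even degree -/
lemma prod_coeff_even {q0 q1 q2 b θ σ : ℝ} (hb : 0 < b) (hθ : 0 < θ) (hθ1 : θ ≤ 1) (hσ : 0 < σ)
    (h0 : |q0| ≤ b * θ * σ) (h1 : |q1| ≤ b) (h2 : |q2| ≤ b * θ / σ) (m : ℕ) :
    |∏ i ∈ Finset.range (2 * m + 1), ((C q0 * X ^ 2 + C q1 * X + C q2 : ℝ[X]) ^ m).coeff i|
      ≤ 3 ^ (m * (2 * m + 1)) * (b ^ (2 * m + 1) * θ ^ (m + 1)) ^ m := by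
  rw [Finset.abs_prod]
  calc _ ≤ ∏ i ∈ Finset.range (2 * m + 1), ((3 * b) ^ m * θ ^ ad i m * σ ^ ((i : ℤ) - m)) :=
        Finset.prod_le_prod (fun i _ => abs_nonneg _)
          fun i _ => coeff_pow_le hb hθ hθ1 hσ h0 h1 h2 m i
    _ = (3 * b) ^ (m * (2 * m + 1)) * θ ^ (m * (m + 1)) := by
        rw [Finset.prod_mul_distrib, Finset.prod_mul_distrib, prod_theta, prod_sigma hσ,
          Finset.prod_const, Finset.card_range, ← pow_mul, mul_one]
    _ = _ := by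
        rw [mul_pow, mul_pow, ← pow_mul, ← pow_mul]
        ring

lemma coeff_mul_lin (l0 l1 : ℝ) (f : ℝ[X]) (i : ℕ) :
    (f * (C l0 * X + C l1)).coeff i = l0 * (if 1 ≤ i then f.coeff (i - 1) else 0) + l1 * f.coeff i := by
  rw [mul_add, coeff_add, ← mul_assoc, mul_comm f (C l0), mul_assoc, coeff_C_mul, coeff_mul_C]
  rcases Nat.eq_zero_or_pos i with h | h
  · subst h; simp; ring
  · obtain ⟨j, rfl⟩ := Nat.exists_eq_add_of_le' h
    simp [coeff_mul_X]
    ring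

/-- the product of the coefficients, odd degree -/
lemma prod_coeff_odd {q0 q1 q2 l0 l1 b θ σ A0 A1 κ : ℝ} (hb : 0 < b) (hθ : 0 < θ) (hθ1 : θ ≤ 1)
    (hσ : 0 < σ) (h0 : |q0| ≤ b * θ * σ) (h1 : |q1| ≤ b) (h2 : |q2| ≤ b * θ / σ)
    (hl0 : |l0| ≤ A0) (hl1 : |l1| ≤ A1) (hA0 : 0 < A0) (hA1 : 0 < A1)
    (hκ : 0 ≤ κ) (hκ0 : A1 * (θ * σ) ≤ κ * A0) (hκ1 : A0 * (θ / σ) ≤ κ * A1) (m : ℕ) :
    |∏ i ∈ Finset.range (2 * m + 2),
        ((C q0 * X ^ 2 + C q1 * X + C q2 : ℝ[X]) ^ m * (C l0 * X + C l1)).coeff i|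
      ≤ ((3 * b) ^ (2 * m) * (1 + κ) ^ 2 * (A0 * A1)) ^ (m + 1) * θ ^ (m * (m + 1)) := by
  set f : ℝ[X] := (C q0 * X ^ 2 + C q1 * X + C q2 : ℝ[X]) ^ m with hf
  have hfle := fun i => coeff_pow_le hb hθ hθ1 hσ h0 h1 h2 m i
  rw [← hf] at hfle
  have hc : ∀ i, |(f * (C l0 * X + C l1)).coeff i|
      ≤ A0 * (if 1 ≤ i then |f.coeff (i - 1)| else 0) + A1 * |f.coeff i| := by
    intro i
    rw [coeff_mul_lin]
    refine (abs_add_le _ _).trans ?_
    rw [abs_mul, abs_mul]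
    have e1 : |(if 1 ≤ i then f.coeff (i - 1) else 0 : ℝ)| = if 1 ≤ i then |f.coeff (i - 1)| else 0 := by
      split_ifs <;> simp
    rw [e1]
    have e2 : 0 ≤ (if 1 ≤ i then |f.coeff (i - 1)| else 0 : ℝ) := by split_ifs <;> positivity
    gcongr
  -- upper half
  have hup : ∀ j, |(f * (C l0 * X + C l1)).coeff (m + 1 + j)|
      ≤ (3 * b) ^ m * ((1 + κ) * A0) * (θ * σ) ^ j := by
    intro j
    refine (hc _).trans ?_
    rw [if_pos (by omega)]
    have e1 := hfle (m + 1 + j - 1)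
    have e2 := hfle (m + 1 + j)
    have e3 : ad (m + 1 + j - 1) m = j := by unfold ad; omega
    have e4 : ad (m + 1 + j) m = j + 1 := by unfold ad; omega
    have e5 : (((m + 1 + j - 1 : ℕ) : ℤ) - m) = (j : ℤ) := by omega
    have e6 : (((m + 1 + j : ℕ) : ℤ) - m) = ((j + 1 : ℕ) : ℤ) := by omega
    rw [e3, e5, zpow_natCast] at e1
    rw [e4, e6, zpow_natCast] at e2
    have hP : 0 < (3 * b) ^ m * (θ * σ) ^ j := by positivity
    calc A0 * |f.coeff (m + 1 + j - 1)| + A1 * |f.coeff (m + 1 + j)|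
        ≤ A0 * ((3 * b) ^ m * θ ^ j * σ ^ j) + A1 * ((3 * b) ^ m * θ ^ (j + 1) * σ ^ (j + 1)) := by
          gcongr
      _ = (3 * b) ^ m * (θ * σ) ^ j * (A0 + A1 * (θ * σ)) := by rw [mul_pow]; ring
      _ ≤ (3 * b) ^ m * (θ * σ) ^ j * (A0 + κ * A0) := by gcongr
      _ = _ := by ring
  have hlow : ∀ j ≤ m, |(f * (C l0 * X + C l1)).coeff (m - j)|
      ≤ (3 * b) ^ m * ((1 + κ) * A1) * (θ / σ) ^ j := by
    intro j hj
    refine (hc _).trans ?_
    have e2 := hfle (m - j)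
    have e4 : ad (m - j) m = j := by unfold ad; omega
    have e6 : (((m - j : ℕ) : ℤ) - m) = -(j : ℤ) := by omega
    rw [e4, e6, zpow_neg, zpow_natCast] at e2
    have e7 : A0 * (if 1 ≤ m - j then |f.coeff (m - j - 1)| else 0)
        ≤ A0 * ((3 * b) ^ m * θ ^ (j + 1) * (σ ^ (j + 1))⁻¹) := by
      split_ifs with h
      · have e1 := hfle (m - j - 1)
        have e3 : ad (m - j - 1) m = j + 1 := by unfold ad; omega
        have e5 : (((m - j - 1 : ℕ) : ℤ) - m) = -((j + 1 : ℕ) : ℤ) := by omega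
        rw [e3, e5, zpow_neg, zpow_natCast] at e1
        gcongr
      · rw [mul_zero]; positivity
    have hP : 0 < (3 * b) ^ m * (θ / σ) ^ j := by positivity
    calc A0 * (if 1 ≤ m - j then |f.coeff (m - j - 1)| else 0) + A1 * |f.coeff (m - j)|
        ≤ A0 * ((3 * b) ^ m * θ ^ (j + 1) * (σ ^ (j + 1))⁻¹)
            + A1 * ((3 * b) ^ m * θ ^ j * (σ ^ j)⁻¹) := by gcongr
      _ = (3 * b) ^ m * (θ / σ) ^ j * (A0 * (θ / σ) + A1) := by
          rw [div_pow, pow_succ, pow_succ]; field_simp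
      _ ≤ (3 * b) ^ m * (θ / σ) ^ j * (κ * A1 + A1) := by gcongr
      _ = _ := by ring
  have hsplit : 2 * m + 2 = (m + 1) + (m + 1) := by ring
  rw [Finset.abs_prod, hsplit, Finset.prod_range_add, ← Finset.prod_range_reflect,
    ← Finset.prod_mul_distrib]
  calc _ ≤ ∏ j ∈ Finset.range (m + 1), ((3 * b) ^ m * ((1 + κ) * A1) * (θ / σ) ^ j
        * ((3 * b) ^ m * ((1 + κ) * A0) * (θ * σ) ^ j)) := by
        refine Finset.prod_le_prod (fun i _ => by positivity) fun j hj => ?_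
        rw [Finset.mem_range] at hj
        have e1 : m + 1 - 1 - j = m - j := by omega
        rw [e1]
        exact mul_le_mul (hlow j (by omega)) (hup j) (abs_nonneg _) (by positivity)
    _ = ∏ j ∈ Finset.range (m + 1), (((3 * b) ^ (2 * m) * (1 + κ) ^ 2 * (A0 * A1)) * (θ ^ 2) ^ j) := by
        refine Finset.prod_congr rfl fun j _ => ?_
        have e1 : (θ / σ) ^ j * (θ * σ) ^ j = (θ ^ 2) ^ j := by
          rw [← mul_pow]; congr 1; field_simp
        rw [← e1, pow_mul']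
        ring
    _ = _ := by
        rw [Finset.prod_mul_distrib, Finset.prod_const, Finset.card_range,
          Finset.prod_pow_eq_pow_sum, ← pow_mul]
        congr 2
        have h4 := Finset.sum_range_id_mul_two (m + 1)
        simp only [Nat.add_sub_cancel] at h4
        rw [mul_comm 2, h4, mul_comm]

end Pool.Agent.N759.CFr
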