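import Mathlib
import Pool.Agent.N759.CFr.Basic
import Pool.Agent.N759.CFr.Poly

/-! # Symmetric powers of binary lattices and repetitions in continued fractions -/

open Polynomial

namespace Pool.Agent.N759.CFr

/-- continuants of the blocks of a sequence: `kont a s n` is the continuant of
`a s, a (s+1), …, a (s+n-1)` -/
def kont (a : ℕ → ℤ) (s : ℕ) : ℕ → ℤ
  | 0 => 1
  | 1 => a s
  | n + 2 => a (s + n + 1) * kont a s (n + 1) + kont a s n

/-- the matrix of a block -/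
noncomputable def WM (α : ℝ) (s : ℕ) : ℕ → Matrix (Fin 2) (Fin 2) ℤ
  | 0 => 1
  | p + 1 => WM α s p * !![pq α (s + p), 1; 1, 0]

lemma WM_succ_zero (α : ℝ) (s p : ℕ) (i : Fin 2) :
    WM α s (p + 1) i 0 = pq α (s + p) * WM α s p i 0 + WM α s p i 1 := by
  rw [WM]
  simp [Matrix.mul_apply, Fin.sum_univ_two]
  ring

lemma WM_succ_one (α : ℝ) (s p : ℕ) (i : Fin 2) : WM α s (p + 1) i 1 = WM α s p i 0 := by
  rw [WM]
  simp [Matrix.mul_apply, Fin.sum_univ_two]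

lemma det_WM (α : ℝ) (s p : ℕ) : |(WM α s p).det| = 1 := by
  induction p with
  | zero => simp [WM]
  | succ k ih => rw [WM, Matrix.det_mul, abs_mul, ih, Matrix.det_fin_two_of]; simp

lemma WM_kont (α : ℝ) (s p : ℕ) : WM α s p 0 0 = kont (pq α) s p := by
  induction p using Nat.strong_induction_on with
  | _ p ih =>
    match p with
    | 0 => simp [WM, kont]
    | 1 => simp [WM, kont]
    | p + 2 =>
      rw [WM_succ_zero, WM_succ_one, ih (p + 1) (by omega), ih p (by omega), kont, Nat.add_assoc]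

lemma WM_congr (α : ℝ) (s t ℓ : ℕ) (h : ∀ j < ℓ, pq α (t + j) = pq α (s + j)) :
    WM α t ℓ = WM α s ℓ := by
  induction ℓ with
  | zero => rfl
  | succ ℓ ih =>
    rw [WM, WM, ih fun j hj => h j (by omega), h ℓ (by omega)]

/-- sign and size of the entries -/
lemma WM_pos {α : ℝ} (hα : Irrational α) (s p : ℕ) :
    0 ≤ WM α (s + 1) (p + 1) 1 1 ∧ WM α (s + 1) (p + 1) 1 1 ≤ WM α (s + 1) (p + 1) 1 0 ∧
    1 ≤ WM α (s + 1) (p + 1) 1 0 ∧ WM α (s + 1) (p + 1) 1 0 ≤ WM α (s + 1) (p + 1) 0 0 ∧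
    0 ≤ WM α (s + 1) (p + 1) 0 1 ∧ WM α (s + 1) (p + 1) 0 1 ≤ WM α (s + 1) (p + 1) 0 0 ∧
    WM α (s + 1) (p + 1) 1 1 ≤ WM α (s + 1) (p + 1) 0 1 := by
  induction p with
  | zero =>
    have h := one_le_pq hα s
    simp [WM]
    omega
  | succ p ih =>
    obtain ⟨h1, h2, h3, h4, h5, h6, h7⟩ := ih
    have h := one_le_pq hα (s + (p + 1))
    rw [show s + (p + 1) + 1 = s + 1 + (p + 1) by ring] at h
    have e1 := WM_succ_zero α (s + 1) (p + 1) 0
    have e2 := WM_succ_zero α (s + 1) (p + 1) 1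
    have e3 := WM_succ_one α (s + 1) (p + 1) 0
    have e4 := WM_succ_one α (s + 1) (p + 1) 1
    rw [e1, e2, e3, e4]
    refine ⟨by omega, by nlinarith, by nlinarith, by nlinarith, by nlinarith, by nlinarith,
      by nlinarith⟩

lemma WM_cq {α : ℝ} (hα : Irrational α) (s p : ℕ) :
    (WM α s p 0 0 : ℝ) * cq α (s + p) + WM α s p 0 1 = pr (cq α s) p * cq α s ∧
    (WM α s p 1 0 : ℝ) * cq α (s + p) + WM α s p 1 1 = pr (cq α s) p := by
  induction p with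
  | zero => simp [WM, pr_zero]
  | succ p ih =>
    obtain ⟨h1, h2⟩ := ih
    have h0 : (0 : ℝ) < cq α (s + p + 1) := by linarith [one_lt_cq hα (s + p)]
    have h3 : cq α (s + p) = pq α (s + p) + (cq α (s + p + 1))⁻¹ := cq_eq _
    have h4 : pr (cq α s) (p + 1) = pr (cq α s) p * cq α (s + p + 1) := by
      rw [pr_succ, ← cq_add]; rfl
    rw [WM_succ_zero, WM_succ_one, WM_succ_zero, WM_succ_one, h4, ← Nat.add_assoc]
    push_cast
    rw [h3] at h1 h2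
    have h5 : (cq α (s + p + 1))⁻¹ * cq α (s + p + 1) = 1 := inv_mul_cancel₀ h0.ne'
    constructor
    · linear_combination (cq α (s + p + 1)) * h1 - (WM α s p 0 0 : ℝ) * h5
    · linear_combination (cq α (s + p + 1)) * h2 - (WM α s p 1 0 : ℝ) * h5

/-- the continuant is bounded by the product of complete quotients -/
lemma kont_le {α : ℝ} (hα : Irrational α) (s ℓ : ℕ) :
    (WM α (s + 1) (ℓ + 1) 0 0 : ℝ) ≤ cq α (s + 1) * pr (cq α (s + 1)) ℓ := by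
  have h1 := (WM_cq hα (s + 1) (ℓ + 1)).1
  obtain ⟨-, -, -, -, h5, -, -⟩ := WM_pos hα s ℓ
  have h6 : (0 : ℝ) ≤ WM α (s + 1) (ℓ + 1) 0 1 := by exact_mod_cast h5
  have h4 : pr (cq α (s + 1)) (ℓ + 1) = pr (cq α (s + 1)) ℓ * cq α (s + 1 + (ℓ + 1)) := by
    rw [pr_succ, ← cq_add]
  have h0 : (0 : ℝ) < cq α (s + 1 + (ℓ + 1)) := lt_trans one_pos (one_lt_cq hα (s + 1 + ℓ))
  rw [h4] at h1
  have h7 : (WM α (s + 1) (ℓ + 1) 0 0 : ℝ) * cq α (s + 1 + (ℓ + 1))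
      ≤ (cq α (s + 1) * pr (cq α (s + 1)) ℓ) * cq α (s + 1 + (ℓ + 1)) := by nlinarith
  exact le_of_mul_le_mul_right h7 h0

/-- closeness of two complete quotients with a common block -/
lemma close {α : ℝ} (hα : Irrational α) (s p ℓ : ℕ)
    (h : ∀ j < ℓ + 1, pq α (s + 1 + p + j) = pq α (s + 1 + j)) :
    |cq α (s + 1) - cq α (s + 1 + p)| * (WM α (s + 1) (ℓ + 1) 0 0 : ℝ) ^ 2
      ≤ cq α (s + 1) * cq α (s + 1 + p) := by
  set x := cq α (s + 1) with hx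
  set y := cq α (s + 1 + p) with hy
  have hxi : Irrational x := irr_cq hα _
  have hyi : Irrational y := irr_cq hα _
  have hx1 : 1 < x := one_lt_cq hα _
  have hy1 : 1 < y := by
    rw [hy, show s + 1 + p = s + p + 1 by ring]; exact one_lt_cq hα _
  have hd : ∀ j < ℓ + 1, pq x j = pq y j := by
    intro j hj
    rw [hx, hy, ← pq_add, ← pq_add]
    exact (h j hj).symm
  have h1 := diff_eq hxi hyi ℓ fun r hr => hd r (by omega)
  have h2 := abs_sub_lt_one (hd ℓ (by omega))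
  rw [← h1] at h2
  have h3 : (WM α (s + 1) (ℓ + 1) 0 0 : ℝ) ≤ x * pr x ℓ := kont_le hα s ℓ
  have h4 : (WM α (s + 1) (ℓ + 1) 0 0 : ℝ) ≤ y * pr y ℓ := by
    have h5 := kont_le hα (s + p) ℓ
    rw [show s + p + 1 = s + 1 + p by ring, WM_congr α (s + 1) (s + 1 + p) (ℓ + 1) h] at h5
    exact h5
  have hK : (0 : ℝ) ≤ WM α (s + 1) (ℓ + 1) 0 0 := by
    obtain ⟨-, -, h3, h4, -, -, -⟩ := WM_pos hα s ℓ
    have : (0 : ℤ) ≤ WM α (s + 1) (ℓ + 1) 0 0 := by omega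
    exact_mod_cast this
  have hp1 := pr_pos hxi ℓ
  have hp2 := pr_pos hyi ℓ
  calc |x - y| * (WM α (s + 1) (ℓ + 1) 0 0 : ℝ) ^ 2
      ≤ |x - y| * ((x * pr x ℓ) * (y * pr y ℓ)) := by
        rw [sq]
        exact mul_le_mul_of_nonneg_left (mul_le_mul h3 h4 hK (by positivity)) (abs_nonneg _)
    _ = (x * y) * (|x - y| * (pr x ℓ * pr y ℓ)) := by ring
    _ ≤ (x * y) * 1 := mul_le_mul_of_nonneg_left h2.le (by positivity)
    _ = _ := by ring

/-- the fixed form of the block -/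
noncomputable def qf (W : Matrix (Fin 2) (Fin 2) ℤ) (z w : ℝ) : ℝ :=
  W 1 0 * z ^ 2 + (W 1 1 - W 0 0) * (z * w) - W 0 1 * w ^ 2

/-- its polar form -/
noncomputable def qp (W : Matrix (Fin 2) (Fin 2) ℤ) (z w z' w' : ℝ) : ℝ :=
  2 * W 1 0 * (z * z') + (W 1 1 - W 0 0) * (z * w' + z' * w) - 2 * W 0 1 * (w * w')

/-- bound for the value of the fixed form at the first row -/
lemma qf_first {α : ℝ} (hα : Irrational α) (v : ℝ) (s p ℓ : ℕ)
    (h : ∀ j < ℓ + 1, pq α (s + 1 + (p + 1) + j) = pq α (s + 1 + j)) :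
    |qf (WM α (s + 1) (p + 1)) (cq α (s + 1) * v) v|
        * ((WM α (s + 1) (ℓ + 1) 0 0 : ℝ) ^ 2 * WM α (s + 1) (p + 1) 0 0)
      ≤ (v * cq α (s + 1)) ^ 2 := by
  have hcl := close hα s (p + 1) ℓ h
  obtain ⟨h1, h2⟩ := WM_cq hα (s + 1) (p + 1)
  have hdet := det_WM α (s + 1) (p + 1)
  obtain ⟨p1, p2, p3, p4, p5, p6, p7⟩ := WM_pos hα s p
  set W := WM α (s + 1) (p + 1) with hW
  set x := cq α (s + 1) with hx
  set y := cq α (s + 1 + (p + 1)) with hy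
  set P := pr x (p + 1) with hP
  have hxi : Irrational x := irr_cq hα _
  have hx1 : 1 < x := one_lt_cq hα _
  have hy1 : 1 < y := one_lt_cq hα (s + 1 + p)
  have hP0 : 0 < P := pr_pos hxi _
  have hW01 : (0 : ℝ) ≤ W 0 1 := by exact_mod_cast p5
  have hW00 : (0 : ℝ) < W 0 0 := by
    have : (0 : ℤ) < W 0 0 := by omega
    exact_mod_cast this
  -- factorisation
  have e1 : qf W (x * v) v = v ^ 2 * ((W 1 0 * x - W 0 0) * (x - y)) := by
    unfold qf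
    have e2 : (W 1 0 : ℝ) * x * y + W 1 1 * x = W 0 0 * y + W 0 1 := by
      rw [h1]; linear_combination x * h2
    linear_combination (v ^ 2) * e2
  have e3 : |W 1 0 * x - W 0 0| * P = 1 := by
    have e4 : (W 1 0 * x - W 0 0) * P = -((W.det : ℤ) : ℝ) := by
      rw [Matrix.det_fin_two]
      push_cast
      linear_combination (-(W 1 0 : ℝ)) * h1 + (W 0 0 : ℝ) * h2
    have e5 : |(W 1 0 * x - W 0 0) * P| = 1 := by
      rw [e4, abs_neg]
      have : |((W.det : ℤ) : ℝ)| = ((|W.det| : ℤ) : ℝ) := by push_cast; rfl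
      rw [this, hdet]; norm_num
    rwa [abs_mul, abs_of_pos hP0] at e5
  have e6 : (W 0 0 : ℝ) * y ≤ P * x := by rw [← h1]; linarith
  set K : ℝ := (WM α (s + 1) (ℓ + 1) 0 0 : ℝ) with hK
  rw [e1, abs_mul, abs_mul, abs_of_nonneg (sq_nonneg v)]
  -- v² |W10 x - W00| |x-y| K² W00 ≤ v² x²
  have e7 : |W 1 0 * x - W 0 0| * (W 0 0 * y) ≤ x := by
    calc |W 1 0 * x - W 0 0| * (W 0 0 * y) ≤ |W 1 0 * x - W 0 0| * (P * x) :=
          mul_le_mul_of_nonneg_left e6 (abs_nonneg _)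
      _ = (|W 1 0 * x - W 0 0| * P) * x := by ring
      _ = x := by rw [e3, one_mul]
  calc v ^ 2 * (|W 1 0 * x - W 0 0| * |x - y|) * (K ^ 2 * W 0 0)
      = v ^ 2 * (|W 1 0 * x - W 0 0| * W 0 0) * (|x - y| * K ^ 2) := by ring
    _ ≤ v ^ 2 * (|W 1 0 * x - W 0 0| * W 0 0) * (x * y) := by
        refine mul_le_mul_of_nonneg_left hcl ?_
        exact mul_nonneg (sq_nonneg _) (mul_nonneg (abs_nonneg _) hW00.le)
    _ = v ^ 2 * x * (|W 1 0 * x - W 0 0| * (W 0 0 * y)) := by ring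
    _ ≤ v ^ 2 * x * x := by
        refine mul_le_mul_of_nonneg_left e7 ?_
        exact mul_nonneg (sq_nonneg _) (by linarith)
    _ = (v * x) ^ 2 := by ring

lemma qp_bound {α : ℝ} (hα : Irrational α) (s p : ℕ) {x v u' v' R : ℝ} (hx : 1 ≤ x)
    (hu : |u'| ≤ R) (hv : |v'| ≤ R) :
    |qp (WM α (s + 1) (p + 1)) (x * v) v u' v'| ≤ 6 * WM α (s + 1) (p + 1) 0 0 * (|v| * x * R) := by
  obtain ⟨p1, p2, p3, p4, p5, p6, p7⟩ := WM_pos hα s p
  set W := WM α (s + 1) (p + 1) with hW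
  have q1 : (0 : ℝ) ≤ W 1 1 := by exact_mod_cast p1
  have q2 : (W 1 1 : ℝ) ≤ W 1 0 := by exact_mod_cast p2
  have q4 : (W 1 0 : ℝ) ≤ W 0 0 := by exact_mod_cast p4
  have q5 : (0 : ℝ) ≤ W 0 1 := by exact_mod_cast p5
  have q6 : (W 0 1 : ℝ) ≤ W 0 0 := by exact_mod_cast p6
  have q0 : (0 : ℝ) ≤ W 0 0 := q5.trans q6
  have q3 : (0 : ℝ) ≤ W 1 0 := q1.trans q2
  have hR : 0 ≤ R := (abs_nonneg _).trans hu
  have e1 : qp W (x * v) v u' v'
      = v * (2 * W 1 0 * x * u' + ((W 1 1 - W 0 0) * (x * v' + u') + (-(2 * W 0 1)) * v')) := by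
    unfold qp; ring
  rw [e1, abs_mul]
  have a1 : |2 * W 1 0 * x * u'| ≤ 2 * W 0 0 * x * R := by
    rw [abs_mul, abs_of_nonneg (by positivity)]
    gcongr
  have a2 : |((W 1 1 : ℝ) - W 0 0) * (x * v' + u')| ≤ W 0 0 * (2 * x * R) := by
    rw [abs_mul]
    have b1 : |(W 1 1 : ℝ) - W 0 0| ≤ W 0 0 := by
      rw [abs_le]; constructor <;> linarith
    have b2 : |x * v' + u'| ≤ 2 * x * R := by
      refine (abs_add_le _ _).trans ?_
      rw [abs_mul, abs_of_nonneg (by linarith)]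
      nlinarith
    exact mul_le_mul b1 b2 (abs_nonneg _) (by linarith)
  have a3 : |(-(2 * (W 0 1 : ℝ))) * v'| ≤ 2 * W 0 0 * (x * R) := by
    rw [abs_mul, abs_neg, abs_of_nonneg (by positivity)]
    have b1 : |v'| ≤ x * R := by nlinarith
    have b2 : 0 ≤ x * R := by positivity
    have b3 : (0 : ℝ) ≤ W 0 0 := by linarith
    nlinarith [abs_nonneg v']
  have a4 : |2 * W 1 0 * x * u' + ((W 1 1 - W 0 0) * (x * v' + u') + (-(2 * W 0 1)) * v')|
      ≤ 6 * W 0 0 * (x * R) := by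
    refine (abs_add_le _ _).trans ?_
    have := abs_add_le (((W 1 1 : ℝ) - W 0 0) * (x * v' + u')) ((-(2 * (W 0 1 : ℝ))) * v')
    linarith
  calc _ ≤ |v| * (6 * W 0 0 * (x * R)) := mul_le_mul_of_nonneg_left a4 (abs_nonneg _)
    _ = _ := by ring

lemma qf_bound {α : ℝ} (hα : Irrational α) (s p : ℕ) {u' v' R : ℝ}
    (hu : |u'| ≤ R) (hv : |v'| ≤ R) :
    |qf (WM α (s + 1) (p + 1)) u' v'| ≤ 3 * WM α (s + 1) (p + 1) 0 0 * R ^ 2 := by
  obtain ⟨p1, p2, p3, p4, p5, p6, p7⟩ := WM_pos hα s p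
  set W := WM α (s + 1) (p + 1) with hW
  have q1 : (0 : ℝ) ≤ W 1 1 := by exact_mod_cast p1
  have q2 : (W 1 1 : ℝ) ≤ W 1 0 := by exact_mod_cast p2
  have q4 : (W 1 0 : ℝ) ≤ W 0 0 := by exact_mod_cast p4
  have q5 : (0 : ℝ) ≤ W 0 1 := by exact_mod_cast p5
  have q6 : (W 0 1 : ℝ) ≤ W 0 0 := by exact_mod_cast p6
  have q0 : (0 : ℝ) ≤ W 0 0 := q5.trans q6
  have q3 : (0 : ℝ) ≤ W 1 0 := q1.trans q2
  have hR : 0 ≤ R := (abs_nonneg _).trans hu
  have a1 : |(W 1 0 : ℝ) * u' ^ 2| ≤ W 0 0 * R ^ 2 := by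
    rw [abs_mul, abs_pow, abs_of_nonneg (by linarith)]
    gcongr
  have a2 : |((W 1 1 : ℝ) - W 0 0) * (u' * v')| ≤ W 0 0 * R ^ 2 := by
    rw [abs_mul, abs_mul]
    have b1 : |(W 1 1 : ℝ) - W 0 0| ≤ W 0 0 := by
      rw [abs_le]; constructor <;> linarith
    have b2 : |u'| * |v'| ≤ R ^ 2 := by
      rw [sq]; exact mul_le_mul hu hv (abs_nonneg _) hR
    exact mul_le_mul b1 b2 (by positivity) (by linarith)
  have a3 : |-((W 0 1 : ℝ) * v' ^ 2)| ≤ W 0 0 * R ^ 2 := by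
    rw [abs_neg, abs_mul, abs_pow, abs_of_nonneg (by linarith)]
    gcongr
  have e1 : qf W u' v' = W 1 0 * u' ^ 2 + ((W 1 1 - W 0 0) * (u' * v') + (-(W 0 1 * v' ^ 2))) := by
    unfold qf; ring
  rw [e1]
  refine (abs_add_le _ _).trans ?_
  have := abs_add_le (((W 1 1 : ℝ) - W 0 0) * (u' * v')) (-((W 0 1 : ℝ) * v' ^ 2))
  linarith

end Pool.Agent.N759.CFr
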