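import Mathlib
import Pool.Agent.N759.CFr.Sym

/-! # Small values of symmetric powers -/

open Polynomial

namespace Pool.Agent.N759.CFr

/-- `symM k g` is the matrix of the map `P ↦ P((X,Y) g)` on binary forms of degree `k`: its entry
`(i, j)` is the coefficient of `t^i` in `(g₀₀ t + g₁₀)^(k-j) (g₀₁ t + g₁₁)^j` -/
noncomputable def symM (k : ℕ) (g : Matrix (Fin 2) (Fin 2) ℝ) :
    Matrix (Fin (k + 1)) (Fin (k + 1)) ℝ :=
  Matrix.of fun i j => ((C (g 0 0) * X + C (g 1 0)) ^ (k - (j : ℕ)) *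
    (C (g 0 1) * X + C (g 1 1)) ^ (j : ℕ)).coeff i

/-- integral binary forms of degree `n` in `U, V` -/
noncomputable def SF (U V : ℝ[X]) (n : ℕ) : Submodule ℤ ℝ[X] :=
  Submodule.span ℤ (Set.range fun j : Fin (n + 1) => U ^ (n - (j : ℕ)) * V ^ (j : ℕ))

lemma mem_SF {U V : ℝ[X]} {n j : ℕ} (hj : j ≤ n) : U ^ (n - j) * V ^ j ∈ SF U V n :=
  Submodule.subset_span ⟨⟨j, by omega⟩, rfl⟩

lemma mulU_mem {U V T : ℝ[X]} {n : ℕ} (hT : T ∈ SF U V n) : U * T ∈ SF U V (n + 1) := by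
  unfold SF at hT
  induction hT using Submodule.span_induction with
  | mem x hx =>
    obtain ⟨j, rfl⟩ := hx
    have hj : (j : ℕ) ≤ n := by omega
    have : U * (U ^ (n - (j : ℕ)) * V ^ (j : ℕ)) = U ^ (n + 1 - (j : ℕ)) * V ^ (j : ℕ) := by
      rw [show n + 1 - (j : ℕ) = (n - (j : ℕ)) + 1 by omega, pow_succ']; ring
    simp only
    rw [this]
    exact mem_SF (by omega)
  | zero => rw [mul_zero]; exact Submodule.zero_mem _
  | add x y _ _ hx hy => rw [mul_add]; exact Submodule.add_mem _ hx hy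
  | smul a x _ hx => rw [mul_smul_comm]; exact Submodule.smul_mem _ _ hx

lemma mulV_mem {U V T : ℝ[X]} {n : ℕ} (hT : T ∈ SF U V n) : V * T ∈ SF U V (n + 1) := by
  unfold SF at hT
  induction hT using Submodule.span_induction with
  | mem x hx =>
    obtain ⟨j, rfl⟩ := hx
    have hj : (j : ℕ) ≤ n := by omega
    have : V * (U ^ (n - (j : ℕ)) * V ^ (j : ℕ)) = U ^ (n + 1 - ((j : ℕ) + 1)) * V ^ ((j : ℕ) + 1) := by
      rw [show n + 1 - ((j : ℕ) + 1) = (n - (j : ℕ)) by omega, pow_succ]; ring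
    simp only
    rw [this]
    exact mem_SF (by omega)
  | zero => rw [mul_zero]; exact Submodule.zero_mem _
  | add x y _ _ hx hy => rw [mul_add]; exact Submodule.add_mem _ hx hy
  | smul a x _ hx => rw [mul_smul_comm]; exact Submodule.smul_mem _ _ hx

lemma mulL_mem {U V T : ℝ[X]} {n : ℕ} (a b : ℤ) (hT : T ∈ SF U V n) :
    (a • U + b • V) * T ∈ SF U V (n + 1) := by
  rw [add_mul, smul_mul_assoc, smul_mul_assoc]
  exact Submodule.add_mem _ (Submodule.smul_mem _ _ (mulU_mem hT))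
    (Submodule.smul_mem _ _ (mulV_mem hT))

lemma one_mem_SF (U V : ℝ[X]) : (1 : ℝ[X]) ∈ SF U V 0 := by
  have := mem_SF (U := U) (V := V) (n := 0) (j := 0) le_rfl
  simpa using this

lemma mulQ_mem {U V T : ℝ[X]} {n : ℕ} (a b c d e f h : ℤ) (hT : T ∈ SF U V n) :
    (e • (a • U + b • V) ^ 2 + f • ((a • U + b • V) * (c • U + d • V)) + h • (c • U + d • V) ^ 2) * T
      ∈ SF U V (n + 2) := by
  have h1 := mulL_mem a b (mulL_mem a b hT)
  have h2 := mulL_mem a b (mulL_mem c d hT)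
  have h3 := mulL_mem c d (mulL_mem c d hT)
  have e1 : (e • (a • U + b • V) ^ 2 + f • ((a • U + b • V) * (c • U + d • V))
      + h • (c • U + d • V) ^ 2) * T
      = e • ((a • U + b • V) * ((a • U + b • V) * T)) + f • ((a • U + b • V) * ((c • U + d • V) * T))
        + h • ((c • U + d • V) * ((c • U + d • V) * T)) := by
    simp only [add_mul, smul_mul_assoc, sq, mul_assoc]
  rw [e1]
  exact Submodule.add_mem _ (Submodule.add_mem _ (Submodule.smul_mem _ _ h1)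
    (Submodule.smul_mem _ _ h2)) (Submodule.smul_mem _ _ h3)

lemma exists_vec {U V T : ℝ[X]} {n : ℕ} (hT : T ∈ SF U V n) :
    ∃ p : Fin (n + 1) → ℤ, ∑ j, C (p j : ℝ) * (U ^ (n - (j : ℕ)) * V ^ (j : ℕ)) = T := by
  obtain ⟨p, hp⟩ := (Submodule.mem_span_range_iff_exists_fun ℤ).1 hT
  refine ⟨p, ?_⟩
  rw [← hp]
  refine Finset.sum_congr rfl fun j _ => ?_
  rw [← Int.cast_smul_eq_zsmul ℝ, Polynomial.smul_eq_C_mul]

lemma symM_mulVec (k : ℕ) (g : Matrix (Fin 2) (Fin 2) ℝ) (p : Fin (k + 1) → ℤ) (i : Fin (k + 1)) :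
    (symM k g).mulVec (fun j => (p j : ℝ)) i
      = (∑ j, C (p j : ℝ) * ((C (g 0 0) * X + C (g 1 0)) ^ (k - (j : ℕ)) *
          (C (g 0 1) * X + C (g 1 1)) ^ (j : ℕ))).coeff i := by
  simp only [Matrix.mulVec, dotProduct, symM, Matrix.of_apply, finsetSum_coeff, coeff_C_mul]
  exact Finset.sum_congr rfl fun j _ => mul_comm _ _

/-- the local quadratic polynomial -/
lemma local_poly (α : ℝ) (g : Matrix (Fin 2) (Fin 2) ℝ) (k : ℕ) :
    ((CC α k 0 0) • (C (g 0 0) * X + C (g 1 0)) + (CC α k 1 0) • (C (g 0 1) * X + C (g 1 1)) : ℝ[X])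
      = C (lu α (g 0 0) (g 0 1) k) * X + C (lu α (g 1 0) (g 1 1) k) ∧
    ((CC α k 0 1) • (C (g 0 0) * X + C (g 1 0)) + (CC α k 1 1) • (C (g 0 1) * X + C (g 1 1)) : ℝ[X])
      = C (lv α (g 0 0) (g 0 1) k) * X + C (lv α (g 1 0) (g 1 1) k) := by
  rw [← (loc_eq α (g 0 0) (g 0 1) k).1, ← (loc_eq α (g 0 0) (g 0 1) k).2,
    ← (loc_eq α (g 1 0) (g 1 1) k).1, ← (loc_eq α (g 1 0) (g 1 1) k).2]
  constructor
  · simp only [zsmul_eq_mul, C_add, C_mul, map_intCast]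
    ring
  · simp only [zsmul_eq_mul, C_add, C_mul, map_intCast]
    ring

lemma local_det (α : ℝ) {g : Matrix (Fin 2) (Fin 2) ℝ} (hg : g.det ≠ 0) (k : ℕ) :
    lu α (g 0 0) (g 0 1) k * lv α (g 1 0) (g 1 1) k
      - lv α (g 0 0) (g 0 1) k * lu α (g 1 0) (g 1 1) k ≠ 0 := by
  rw [← (loc_eq α (g 0 0) (g 0 1) k).1, ← (loc_eq α (g 0 0) (g 0 1) k).2,
    ← (loc_eq α (g 1 0) (g 1 1) k).1, ← (loc_eq α (g 1 0) (g 1 1) k).2]
  have h1 := det_CC_ne α k
  rw [Matrix.det_fin_two] at h1 hg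
  have h2 : ((CC α k 0 0 * CC α k 1 1 - CC α k 0 1 * CC α k 1 0 : ℤ) : ℝ) ≠ 0 := by
    exact_mod_cast h1
  push_cast at h2
  have h3 := mul_ne_zero hg h2
  intro h4
  apply h3
  rw [← h4]
  ring

lemma quad_poly (W : Matrix (Fin 2) (Fin 2) ℤ) (z0 w0 z1 w1 : ℝ) :
    (W 1 0 • (C z0 * X + C z1) ^ 2
      + (W 1 1 - W 0 0) • ((C z0 * X + C z1) * (C w0 * X + C w1))
      + (-(W 0 1)) • (C w0 * X + C w1) ^ 2 : ℝ[X])
      = C (qf W z0 w0) * X ^ 2 + C (qp W z0 w0 z1 w1) * X + C (qf W z1 w1) := by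
  simp only [qf, qp, zsmul_eq_mul, C_add, C_sub, C_mul, C_pow, Int.cast_sub, Int.cast_neg,
    map_intCast, map_ofNat]
  ring

lemma quad_ne {W : Matrix (Fin 2) (Fin 2) ℤ} (hW : W 1 0 ≠ 0) {z0 w0 z1 w1 : ℝ}
    (hdet : z0 * w1 - w0 * z1 ≠ 0) :
    (C (qf W z0 w0) * X ^ 2 + C (qp W z0 w0 z1 w1) * X + C (qf W z1 w1) : ℝ[X]) ≠ 0 := by
  intro h
  have h0 : qf W z0 w0 = 0 := by
    have := congrArg (fun p : ℝ[X] => p.coeff 2) h
    simpa [coeff_X, coeff_C] using this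
  have h1 : qp W z0 w0 z1 w1 = 0 := by
    have := congrArg (fun p : ℝ[X] => p.coeff 1) h
    simpa [coeff_X, coeff_C, coeff_X_pow] using this
  have h2 : qf W z1 w1 = 0 := by
    have := congrArg (fun p : ℝ[X] => p.coeff 0) h
    simpa [coeff_X, coeff_C, coeff_X_pow] using this
  have h3 : (W 1 0 : ℝ) * (z0 * w1 - w0 * z1) ^ 2
      = w1 ^ 2 * qf W z0 w0 - w0 * w1 * qp W z0 w0 z1 w1 + w0 ^ 2 * qf W z1 w1 := by
    unfold qf qp; ring
  rw [h0, h1, h2] at h3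
  have h4 : (W 1 0 : ℝ) ≠ 0 := by exact_mod_cast hW
  have h5 := mul_ne_zero h4 (pow_ne_zero 2 hdet)
  apply h5
  rw [h3]
  ring

lemma lin_ne {z0 w0 z1 w1 : ℝ} (hdet : z0 * w1 - w0 * z1 ≠ 0) :
    (C w0 * X + C w1 : ℝ[X]) ≠ 0 := by
  intro h
  have h1 : w0 = 0 := by
    have := congrArg (fun p : ℝ[X] => p.coeff 1) h
    simpa [coeff_X, coeff_C] using this
  have h2 : w1 = 0 := by
    have := congrArg (fun p : ℝ[X] => p.coeff 0) h
    simpa [coeff_X, coeff_C] using this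
  apply hdet
  rw [h1, h2]; ring

/-- the values at powers of a local quadratic form -/
lemma exists_form (α : ℝ) {g : Matrix (Fin 2) (Fin 2) ℝ} (hg : g.det ≠ 0) (s : ℕ)
    (W : Matrix (Fin 2) (Fin 2) ℤ) (hW : W 1 0 ≠ 0) (m : ℕ) :
    (∃ p : Fin (2 * m + 1) → ℤ, p ≠ 0 ∧ ∀ i : Fin (2 * m + 1),
      (symM (2 * m) g).mulVec (fun j => (p j : ℝ)) i
        = ((C (qf W (lu α (g 0 0) (g 0 1) s) (lv α (g 0 0) (g 0 1) s)) * X ^ 2
            + C (qp W (lu α (g 0 0) (g 0 1) s) (lv α (g 0 0) (g 0 1) s)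
                (lu α (g 1 0) (g 1 1) s) (lv α (g 1 0) (g 1 1) s)) * X
            + C (qf W (lu α (g 1 0) (g 1 1) s) (lv α (g 1 0) (g 1 1) s)) : ℝ[X]) ^ m).coeff i) ∧
    (∃ p : Fin (2 * m + 1 + 1) → ℤ, p ≠ 0 ∧ ∀ i : Fin (2 * m + 1 + 1),
      (symM (2 * m + 1) g).mulVec (fun j => (p j : ℝ)) i
        = ((C (qf W (lu α (g 0 0) (g 0 1) s) (lv α (g 0 0) (g 0 1) s)) * X ^ 2
            + C (qp W (lu α (g 0 0) (g 0 1) s) (lv α (g 0 0) (g 0 1) s)
                (lu α (g 1 0) (g 1 1) s) (lv α (g 1 0) (g 1 1) s)) * X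
            + C (qf W (lu α (g 1 0) (g 1 1) s) (lv α (g 1 0) (g 1 1) s)) : ℝ[X]) ^ m
            * (C (lv α (g 0 0) (g 0 1) s) * X + C (lv α (g 1 0) (g 1 1) s))).coeff i) := by
  obtain ⟨hlu, hlv⟩ := local_poly α g s
  have hdet := local_det α hg s
  set U : ℝ[X] := C (g 0 0) * X + C (g 1 0) with hU
  set V : ℝ[X] := C (g 0 1) * X + C (g 1 1) with hV
  set z0 := lu α (g 0 0) (g 0 1) s
  set w0 := lv α (g 0 0) (g 0 1) s
  set z1 := lu α (g 1 0) (g 1 1) s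
  set w1 := lv α (g 1 0) (g 1 1) s
  set q : ℝ[X] := C (qf W z0 w0) * X ^ 2 + C (qp W z0 w0 z1 w1) * X + C (qf W z1 w1) with hq
  have hq0 : q ≠ 0 := quad_ne hW hdet
  have hl0 : (C w0 * X + C w1 : ℝ[X]) ≠ 0 := lin_ne hdet
  have hmul : ∀ n : ℕ, ∀ T ∈ SF U V n, q * T ∈ SF U V (n + 2) := by
    intro n T hT
    have := mulQ_mem (CC α s 0 0) (CC α s 1 0) (CC α s 0 1) (CC α s 1 1) (W 1 0) (W 1 1 - W 0 0)
      (-(W 0 1)) hT
    rw [hlu, hlv, quad_poly] at this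
    exact this
  have hpow : q ^ m ∈ SF U V (2 * m) := by
    clear hq0
    induction m with
    | zero => rw [pow_zero]; exact one_mem_SF U V
    | succ m ih =>
      rw [pow_succ']
      exact hmul _ _ ih
  have hpow2 : q ^ m * (C w0 * X + C w1) ∈ SF U V (2 * m + 1) := by
    have := mulL_mem (CC α s 0 1) (CC α s 1 1) hpow
    rw [hlv] at this
    rw [mul_comm (q ^ m)]
    exact this
  constructor
  · obtain ⟨p, hp⟩ := exists_vec hpow
    refine ⟨p, ?_, fun i => ?_⟩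
    · rintro rfl
      apply pow_ne_zero m hq0
      rw [← hp]
      exact Finset.sum_eq_zero fun j _ => by simp
    · rw [symM_mulVec, ← hp]
  · obtain ⟨p, hp⟩ := exists_vec hpow2
    refine ⟨p, ?_, fun i => ?_⟩
    · rintro rfl
      apply mul_ne_zero (pow_ne_zero m hq0) hl0
      rw [← hp]
      exact Finset.sum_eq_zero fun j _ => by simp
    · rw [symM_mulVec, ← hp]

end Pool.Agent.N759.CFr
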