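import Mathlib
import Pool.Agent.N759.CFr.SymMain

/-! # Small values of symmetric powers from repetitions -/

open Polynomial

namespace Pool.Agent.N759.CFr

/-- bounds of the three local coefficients -/
lemma rep_bounds {α : ℝ} (hα : Irrational α) (g : Matrix (Fin 2) (Fin 2) ℝ)
    (hg : g 0 0 = α * g 0 1) (s p ℓ : ℕ)
    (h : ∀ j < ℓ + 1, pq α (s + 1 + (p + 1) + j) = pq α (s + 1 + j)) :
    let W := WM α (s + 1) (p + 1)
    let K : ℝ := WM α (s + 1) (ℓ + 1) 0 0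
    let B := BB α (s + 1)
    let a : ℝ := W 0 0
    let V := |g 0 1| + 1
    let c := |g 1 1| + |g 1 0 - pq α 0 * g 1 1| + 1
    |qf W (lu α (g 0 0) (g 0 1) (s + 1)) (lv α (g 0 0) (g 0 1) (s + 1))| * (K ^ 2 * a * B ^ 2)
        ≤ 4 * V ^ 2 ∧
    |qp W (lu α (g 0 0) (g 0 1) (s + 1)) (lv α (g 0 0) (g 0 1) (s + 1))
        (lu α (g 1 0) (g 1 1) (s + 1)) (lv α (g 1 0) (g 1 1) (s + 1))| ≤ 12 * a * c * V ∧
    |qf W (lu α (g 1 0) (g 1 1) (s + 1)) (lv α (g 1 0) (g 1 1) (s + 1))| ≤ 3 * a * c ^ 2 * B ^ 2 ∧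
    |lv α (g 0 0) (g 0 1) (s + 1)| * (B * cq α (s + 1)) ≤ 2 * V ∧
    |lv α (g 1 0) (g 1 1) (s + 1)| ≤ c * B ∧ cq α (s + 1) ≤ 2 * a := by
  intro W K B a V c
  have hx1 : 1 < cq α (s + 1) := one_lt_cq hα s
  have hB : 0 < B := BB_pos hα _
  have hu0 : lu α (g 0 0) (g 0 1) (s + 1) = cq α (s + 1) * lv α (g 0 0) (g 0 1) (s + 1) := by
    rw [hg]; exact lu_eq hα _ _
  have hk1 : |lv α (g 0 0) (g 0 1) (s + 1)| * (B * cq α (s + 1)) ≤ 2 * |g 0 1| := by
    rw [hg]; exact key_le hα _ _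
  have hv1 : |lv α (g 1 0) (g 1 1) (s + 1)| ≤ (|g 1 1| + |g 1 0 - pq α 0 * g 1 1|) * B :=
    abs_lv_le hα _ _ _
  have hu1 : |lu α (g 1 0) (g 1 1) (s + 1)| ≤ (|g 1 1| + |g 1 0 - pq α 0 * g 1 1|) * B :=
    abs_lu_le hα _ _ _
  obtain ⟨p1, p2, p3, p4, p5, p6, p7⟩ := WM_pos hα s p
  have hc : (|g 1 1| + |g 1 0 - pq α 0 * g 1 1|) * B ≤ c * B := by
    have : |g 1 1| + |g 1 0 - pq α 0 * g 1 1| ≤ c := by simp only [c]; linarith
    exact mul_le_mul_of_nonneg_right this hB.le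
  have hv1' : |lv α (g 1 0) (g 1 1) (s + 1)| ≤ c * B := hv1.trans hc
  have hu1' : |lu α (g 1 0) (g 1 1) (s + 1)| ≤ c * B := hu1.trans hc
  have hk1' : |lv α (g 0 0) (g 0 1) (s + 1)| * (B * cq α (s + 1)) ≤ 2 * V :=
    hk1.trans (by simp only [V]; linarith)
  have ha : (1 : ℝ) ≤ a := by
    have : (1 : ℤ) ≤ WM α (s + 1) (p + 1) 0 0 := by omega
    change (1 : ℝ) ≤ ((WM α (s + 1) (p + 1) 0 0 : ℤ) : ℝ)
    exact_mod_cast this
  refine ⟨?_, ?_, ?_, hk1', hv1', ?_⟩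
  · have h1 := qf_first hα (lv α (g 0 0) (g 0 1) (s + 1)) s p ℓ h
    rw [hu0]
    set v := lv α (g 0 0) (g 0 1) (s + 1)
    calc |qf W (cq α (s + 1) * v) v| * (K ^ 2 * a * B ^ 2)
        = |qf W (cq α (s + 1) * v) v| * (K ^ 2 * a) * B ^ 2 := by ring
      _ ≤ (v * cq α (s + 1)) ^ 2 * B ^ 2 := by
          exact mul_le_mul_of_nonneg_right h1 (sq_nonneg _)
      _ = (|v| * (B * cq α (s + 1))) ^ 2 := by
          rw [mul_pow, mul_pow, mul_pow, sq_abs]; ring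
      _ ≤ (2 * V) ^ 2 := by
          refine pow_le_pow_left₀ ?_ hk1' 2
          exact mul_nonneg (abs_nonneg _) (mul_nonneg hB.le (by linarith))
      _ = 4 * V ^ 2 := by ring
  · rw [hu0]
    have h1 := qp_bound hα s p (x := cq α (s + 1)) (v := lv α (g 0 0) (g 0 1) (s + 1)) hx1.le hu1' hv1'
    refine h1.trans ?_
    have h2 : |lv α (g 0 0) (g 0 1) (s + 1)| * cq α (s + 1) * (c * B)
        = c * (|lv α (g 0 0) (g 0 1) (s + 1)| * (B * cq α (s + 1))) := by ring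
    rw [h2]
    have hc0 : 0 ≤ c := by simp only [c]; positivity
    have h3 : c * (|lv α (g 0 0) (g 0 1) (s + 1)| * (B * cq α (s + 1))) ≤ c * (2 * V) :=
      mul_le_mul_of_nonneg_left hk1' hc0
    have h4 : (0 : ℝ) ≤ 6 * a := by linarith
    calc 6 * a * (c * (|lv α (g 0 0) (g 0 1) (s + 1)| * (B * cq α (s + 1))))
        ≤ 6 * a * (c * (2 * V)) := mul_le_mul_of_nonneg_left h3 h4
      _ = _ := by ring
  · refine (qf_bound hα s p hu1' hv1').trans (le_of_eq ?_)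
    simp only [a]
    ring
  · -- cq ≤ 2 a
    have h1 : pq α (s + 1) ≤ W 0 0 := by
      -- W00 = pq * (...) + ... ≥ pq α (s+1)
      have h2 : ∀ n : ℕ, pq α (s + 1) ≤ WM α (s + 1) (n + 1) 0 0 := by
        intro n
        induction n with
        | zero => simp [WM]
        | succ n ih =>
          rw [WM_succ_zero]
          obtain ⟨r1, r2, r3, r4, r5, r6, r7⟩ := WM_pos hα s n
          have h3 := one_le_pq hα (s + (n + 1))
          rw [show s + (n + 1) + 1 = s + 1 + (n + 1) by ring] at h3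
          nlinarith
      exact h2 p
    have h2 : cq α (s + 1) < pq α (s + 1) + 1 := Int.lt_floor_add_one _
    have h3 : (pq α (s + 1) : ℝ) ≤ a := by
      change (pq α (s + 1) : ℝ) ≤ ((WM α (s + 1) (p + 1) 0 0 : ℤ) : ℝ)
      exact_mod_cast h1
    linarith

/-- bound of the product for even degree `2m` -/
lemma rep_even {α : ℝ} (hα : Irrational α) (g : Matrix (Fin 2) (Fin 2) ℝ) (hdet : g.det ≠ 0)
    (hg : g 0 0 = α * g 0 1) (m : ℕ) :
    ∃ D : ℝ, 0 < D ∧ ∀ s p ℓ : ℕ,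
      (∀ j < ℓ + 1, pq α (s + 1 + (p + 1) + j) = pq α (s + 1 + j)) →
      ∃ v : Fin (2 * m + 1) → ℤ, v ≠ 0 ∧
        |∏ i, (symM (2 * m) g).mulVec (fun j => (v j : ℝ)) i|
          ≤ D * ((WM α (s + 1) (p + 1) 0 0 : ℝ) ^ m / (WM α (s + 1) (ℓ + 1) 0 0 : ℝ) ^ (m + 1)) ^ m := by
  set V := |g 0 1| + 1 with hV
  set c := |g 1 1| + |g 1 0 - pq α 0 * g 1 1| + 1 with hc
  have hV1 : 1 ≤ V := by rw [hV]; linarith [abs_nonneg (g 0 1)]
  have hc1 : 1 ≤ c := by rw [hc]; linarith [abs_nonneg (g 1 1), abs_nonneg (g 1 0 - pq α 0 * g 1 1)]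
  refine ⟨3 ^ (m * (2 * m + 1)) * ((12 * c * V) ^ m * (4 * c * V) ^ (m + 1)) ^ m,
    by positivity, fun s p ℓ h => ?_⟩
  obtain ⟨b1, b2, b3, b4, b5, b6⟩ := rep_bounds hα g hg s p ℓ h
  obtain ⟨p1, p2, p3, p4, p5, p6, p7⟩ := WM_pos hα s p
  obtain ⟨r1, r2, r3, r4, r5, r6, r7⟩ := WM_pos hα s ℓ
  set W := WM α (s + 1) (p + 1) with hW
  set K : ℝ := ((WM α (s + 1) (ℓ + 1) 0 0 : ℤ) : ℝ) with hK
  set B := BB α (s + 1) with hB
  set a : ℝ := ((W 0 0 : ℤ) : ℝ) with ha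
  have hB0 : 0 < B := BB_pos hα _
  have ha1 : 1 ≤ a := by
    have : (1 : ℤ) ≤ W 0 0 := by omega
    rw [ha]; exact_mod_cast this
  have hK1 : 1 ≤ K := by
    have : (1 : ℤ) ≤ WM α (s + 1) (ℓ + 1) 0 0 := by omega
    rw [hK]; exact_mod_cast this
  obtain ⟨v, hv0, hv⟩ := (exists_form α hdet (s + 1) W (by omega) m).1
  refine ⟨v, hv0, ?_⟩
  rw [Finset.prod_congr rfl fun i _ => hv i,
    Fin.prod_univ_eq_prod_range (fun i => ((C (qf W (lu α (g 0 0) (g 0 1) (s + 1))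
      (lv α (g 0 0) (g 0 1) (s + 1))) * X ^ 2
            + C (qp W (lu α (g 0 0) (g 0 1) (s + 1)) (lv α (g 0 0) (g 0 1) (s + 1))
                (lu α (g 1 0) (g 1 1) (s + 1)) (lv α (g 1 0) (g 1 1) (s + 1))) * X
            + C (qf W (lu α (g 1 0) (g 1 1) (s + 1)) (lv α (g 1 0) (g 1 1) (s + 1))) : ℝ[X]) ^ m).coeff i)]
  have hr : 0 < 4 * c * V / K := by positivity
  have hb : 0 < 12 * a * c * V := by positivity
  have hθ : 0 < (4 * c * V / K) / (12 * a * c * V) := by positivity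
  have hσ : 0 < (4 * c * V / K) / (3 * a * c ^ 2 * B ^ 2) := by positivity
  have hθ1 : (4 * c * V / K) / (12 * a * c * V) ≤ 1 := by
    rw [div_le_one hb, div_le_iff₀ (by linarith)]
    have h1 : 0 < c * V := by positivity
    have h2 : 1 ≤ a * K := by nlinarith
    nlinarith
  have e1 : (12 * a * c * V) * ((4 * c * V / K) / (12 * a * c * V)) = 4 * c * V / K := by
    field_simp
  have key := prod_coeff_even hb hθ hθ1 hσ
    (q0 := qf W (lu α (g 0 0) (g 0 1) (s + 1)) (lv α (g 0 0) (g 0 1) (s + 1)))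
    (q1 := qp W (lu α (g 0 0) (g 0 1) (s + 1)) (lv α (g 0 0) (g 0 1) (s + 1))
                (lu α (g 1 0) (g 1 1) (s + 1)) (lv α (g 1 0) (g 1 1) (s + 1)))
    (q2 := qf W (lu α (g 1 0) (g 1 1) (s + 1)) (lv α (g 1 0) (g 1 1) (s + 1)))
    (by
      rw [e1]
      have h1 : 0 < K ^ 2 * a * B ^ 2 := by positivity
      rw [← le_div_iff₀ h1] at b1
      refine b1.trans ?_
      rw [div_le_iff₀ h1]
      have h2 : 4 * c * V / K * (4 * c * V / K / (3 * a * c ^ 2 * B ^ 2)) * (K ^ 2 * a * B ^ 2)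
          = 16 / 3 * V ^ 2 := by
        field_simp
        ring
      rw [h2]
      nlinarith [sq_nonneg V])
    b2
    (by
      rw [e1]
      have h2 : 4 * c * V / K / (4 * c * V / K / (3 * a * c ^ 2 * B ^ 2)) = 3 * a * c ^ 2 * B ^ 2 := by
        field_simp
      rw [h2]
      exact b3) m
  refine key.trans (le_of_eq ?_)
  have e2 : (12 * a * c * V) ^ (2 * m + 1) * ((4 * c * V / K) / (12 * a * c * V)) ^ (m + 1)
      = (12 * c * V) ^ m * (4 * c * V) ^ (m + 1) * (a ^ m / K ^ (m + 1)) := by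
    have h1 : (12 * a * c * V) ^ (2 * m + 1) = (12 * a * c * V) ^ m * (12 * a * c * V) ^ (m + 1) := by
      rw [← pow_add]; congr 1; ring
    rw [h1, mul_assoc, ← mul_pow, e1, div_pow]
    have h2 : (12 * a * c * V) ^ m = (12 * c * V) ^ m * a ^ m := by rw [← mul_pow]; congr 1; ring
    rw [h2]
    ring
  rw [e2, mul_pow]
  ring

/-- bound of the product for odd degree `2m+1` -/
lemma rep_odd {α : ℝ} (hα : Irrational α) (g : Matrix (Fin 2) (Fin 2) ℝ) (hdet : g.det ≠ 0)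
    (hg : g 0 0 = α * g 0 1) (m : ℕ) :
    ∃ D : ℝ, 0 < D ∧ ∀ s p ℓ : ℕ,
      (∀ j < ℓ + 1, pq α (s + 1 + (p + 1) + j) = pq α (s + 1 + j)) →
      ∃ v : Fin (2 * m + 1 + 1) → ℤ, v ≠ 0 ∧
        |∏ i, (symM (2 * m + 1) g).mulVec (fun j => (v j : ℝ)) i|
          ≤ D * ((WM α (s + 1) (p + 1) 0 0 : ℝ) / (WM α (s + 1) (ℓ + 1) 0 0 : ℝ)) ^ (m * (m + 1)) := by
  set V := |g 0 1| + 1 with hV
  set c := |g 1 1| + |g 1 0 - pq α 0 * g 1 1| + 1 with hc
  have hV1 : 1 ≤ V := by rw [hV]; linarith [abs_nonneg (g 0 1)]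
  have hc1 : 1 ≤ c := by rw [hc]; linarith [abs_nonneg (g 1 1), abs_nonneg (g 1 0 - pq α 0 * g 1 1)]
  refine ⟨(9 ^ m * (4 * (2 * V * c))) ^ (m + 1) * ((12 * c * V) * (4 * c * V)) ^ (m * (m + 1)),
    by positivity, fun s p ℓ h => ?_⟩
  obtain ⟨b1, b2, b3, b4, b5, b6⟩ := rep_bounds hα g hg s p ℓ h
  obtain ⟨p1, p2, p3, p4, p5, p6, p7⟩ := WM_pos hα s p
  obtain ⟨r1, r2, r3, r4, r5, r6, r7⟩ := WM_pos hα s ℓ
  have hx1 : 1 < cq α (s + 1) := one_lt_cq hα s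
  set W := WM α (s + 1) (p + 1) with hW
  set K : ℝ := ((WM α (s + 1) (ℓ + 1) 0 0 : ℤ) : ℝ) with hK
  set B := BB α (s + 1) with hB
  set a : ℝ := ((W 0 0 : ℤ) : ℝ) with ha
  set x := cq α (s + 1) with hx
  have hB0 : 0 < B := BB_pos hα _
  have ha1 : 1 ≤ a := by
    have : (1 : ℤ) ≤ W 0 0 := by omega
    rw [ha]; exact_mod_cast this
  have hK1 : 1 ≤ K := by
    have : (1 : ℤ) ≤ WM α (s + 1) (ℓ + 1) 0 0 := by omega
    rw [hK]; exact_mod_cast this
  obtain ⟨v, hv0, hv⟩ := (exists_form α hdet (s + 1) W (by omega) m).2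
  refine ⟨v, hv0, ?_⟩
  have e0 : ∏ i, (symM (2 * m + 1) g).mulVec (fun j => (v j : ℝ)) i
      = ∏ i ∈ Finset.range (2 * m + 2), ((C (qf W (lu α (g 0 0) (g 0 1) (s + 1))
      (lv α (g 0 0) (g 0 1) (s + 1))) * X ^ 2
            + C (qp W (lu α (g 0 0) (g 0 1) (s + 1)) (lv α (g 0 0) (g 0 1) (s + 1))
                (lu α (g 1 0) (g 1 1) (s + 1)) (lv α (g 1 0) (g 1 1) (s + 1))) * X
            + C (qf W (lu α (g 1 0) (g 1 1) (s + 1)) (lv α (g 1 0) (g 1 1) (s + 1))) : ℝ[X]) ^ m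
            * (C (lv α (g 0 0) (g 0 1) (s + 1)) * X + C (lv α (g 1 0) (g 1 1) (s + 1)))).coeff i := by
    rw [Finset.prod_range]
    exact Finset.prod_congr rfl fun i _ => hv i
  rw [e0]
  have hr : 0 < 4 * c * V / K := by positivity
  have hb : 0 < 12 * a * c * V := by positivity
  have hθ : 0 < (4 * c * V / K) / (12 * a * c * V) := by positivity
  have hσ : 0 < (4 * c * V / K) / (3 * a * c ^ 2 * B ^ 2) := by positivity
  have hθ1 : (4 * c * V / K) / (12 * a * c * V) ≤ 1 := by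
    rw [div_le_one hb, div_le_iff₀ (by linarith)]
    have h1 : 0 < c * V := by positivity
    have h2 : 1 ≤ a * K := by nlinarith
    nlinarith
  have e1 : (12 * a * c * V) * ((4 * c * V / K) / (12 * a * c * V)) = 4 * c * V / K := by
    field_simp
  have key := prod_coeff_odd hb hθ hθ1 hσ
    (q0 := qf W (lu α (g 0 0) (g 0 1) (s + 1)) (lv α (g 0 0) (g 0 1) (s + 1)))
    (q1 := qp W (lu α (g 0 0) (g 0 1) (s + 1)) (lv α (g 0 0) (g 0 1) (s + 1))
                (lu α (g 1 0) (g 1 1) (s + 1)) (lv α (g 1 0) (g 1 1) (s + 1)))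
    (q2 := qf W (lu α (g 1 0) (g 1 1) (s + 1)) (lv α (g 1 0) (g 1 1) (s + 1)))
    (l0 := lv α (g 0 0) (g 0 1) (s + 1)) (l1 := lv α (g 1 0) (g 1 1) (s + 1))
    (A0 := 2 * V / (B * x)) (A1 := c * B) (κ := 1)
    (by
      rw [e1]
      have h1 : 0 < K ^ 2 * a * B ^ 2 := by positivity
      rw [← le_div_iff₀ h1] at b1
      refine b1.trans ?_
      rw [div_le_iff₀ h1]
      have h2 : 4 * c * V / K * (4 * c * V / K / (3 * a * c ^ 2 * B ^ 2)) * (K ^ 2 * a * B ^ 2)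
          = 16 / 3 * V ^ 2 := by
        field_simp
        ring
      rw [h2]
      nlinarith [sq_nonneg V])
    b2
    (by
      rw [e1]
      have h2 : 4 * c * V / K / (4 * c * V / K / (3 * a * c ^ 2 * B ^ 2)) = 3 * a * c ^ 2 * B ^ 2 := by
        field_simp
      rw [h2]
      exact b3)
    (by rw [le_div_iff₀ (by positivity)]; exact b4)
    b5 (by positivity) (by positivity) zero_le_one
    (by
      rw [one_mul, le_div_iff₀ (by positivity)]
      have h2 : c * B * (4 * c * V / K / (12 * a * c * V) * (4 * c * V / K / (3 * a * c ^ 2 * B ^ 2)))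
          * (B * x) = (4 / 9 * V) * (x / a) * (1 / (K ^ 2 * a)) := by
        field_simp
        ring
      rw [h2]
      have h3 : x / a ≤ 2 := by rw [div_le_iff₀ (by linarith)]; exact b6
      have h4 : 1 / (K ^ 2 * a) ≤ 1 := by
        rw [div_le_one (by positivity)]
        nlinarith
      have h5 : (4 / 9 * V) * (x / a) * (1 / (K ^ 2 * a)) ≤ (4 / 9 * V) * 2 * 1 := by gcongr
      linarith)
    (by
      rw [one_mul]
      have h2 : 2 * V / (B * x) * (4 * c * V / K / (12 * a * c * V)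
          / (4 * c * V / K / (3 * a * c ^ 2 * B ^ 2))) = (c * B) * (1 / (2 * x)) := by
        field_simp
        ring
      rw [h2]
      have h4 : 1 / (2 * x) ≤ 1 := by
        rw [div_le_one (by positivity)]
        linarith
      have h5 : 0 < c * B := by positivity
      nlinarith) m
  refine key.trans ?_
  have e3 : (3 * (12 * a * c * V)) ^ (2 * m) = 9 ^ m * ((12 * a * c * V) ^ 2) ^ m := by
    rw [pow_mul, mul_pow, mul_pow]; norm_num
  have e4 : 2 * V / (B * x) * (c * B) ≤ 2 * V * c := by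
    rw [div_mul_eq_mul_div, div_le_iff₀ (by positivity)]
    have h5 : 0 < 2 * V * (c * B) := by positivity
    nlinarith
  have e5 : ((12 * a * c * V) ^ 2 * ((4 * c * V / K) / (12 * a * c * V)))
      = ((12 * c * V) * (4 * c * V)) * (a / K) := by
    field_simp
  calc ((3 * (12 * a * c * V)) ^ (2 * m) * (1 + 1) ^ 2 * (2 * V / (B * x) * (c * B))) ^ (m + 1)
        * ((4 * c * V / K) / (12 * a * c * V)) ^ (m * (m + 1))
      ≤ ((3 * (12 * a * c * V)) ^ (2 * m) * (1 + 1) ^ 2 * (2 * V * c)) ^ (m + 1)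
        * ((4 * c * V / K) / (12 * a * c * V)) ^ (m * (m + 1)) := by gcongr
    _ = (9 ^ m * (4 * (2 * V * c))) ^ (m + 1)
          * ((12 * a * c * V) ^ 2 * ((4 * c * V / K) / (12 * a * c * V))) ^ (m * (m + 1)) := by
        rw [e3, mul_pow ((12 * a * c * V) ^ 2) _ (m * (m + 1)), pow_mul ((12 * a * c * V) ^ 2) m (m + 1)]
        have h6 : (9 ^ m * ((12 * a * c * V) ^ 2) ^ m * (1 + 1) ^ 2 * (2 * V * c))
            = (9 ^ m * (4 * (2 * V * c))) * ((12 * a * c * V) ^ 2) ^ m := by ring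
        rw [h6, mul_pow]
        ring
    _ = _ := by
        rw [e5, mul_pow _ (a / K)]
        ring

end Pool.Agent.N759.CFr
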