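import Mathlib
import Pool.Agent.N759.CFr.SymRep

/-! # Small values of symmetric powers from repetitions: final form -/

open Polynomial Matrix Kronecker

namespace Pool.Agent.N759.CFr

lemma kont_one_le {α : ℝ} (hα : Irrational α) (s p : ℕ) :
    (1 : ℝ) ≤ (WM α (s + 1) (p + 1) 0 0 : ℝ) := by
  obtain ⟨-, -, p3, p4, -, -, -⟩ := WM_pos hα s p
  have : (1 : ℤ) ≤ WM α (s + 1) (p + 1) 0 0 := by omega
  exact_mod_cast this

lemma WM_zero00 (α : ℝ) (s : ℕ) : WM α s 0 0 0 = 1 := by simp [WM]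

/-- from small values of the first factor to the Kronecker product -/
lemma kron_small {ι : Type*} [Fintype ι] [DecidableEq ι] (S : Matrix ι ι ℝ)
    (h : ∀ δ : ℝ, 0 < δ → ∃ v : ι → ℤ, v ≠ 0 ∧ |∏ i, (S *ᵥ fun j => (v j : ℝ)) i| < δ)
    (n : ℕ) (hn : 0 < n) (G : Matrix (Fin n) (Fin n) ℝ) (ε : ℝ) (hε : 0 < ε) :
    ∃ x : ι × Fin n → ℤ, x ≠ 0 ∧ |∏ i, ((S ⊗ₖ G) *ᵥ fun j => (x j : ℝ)) i| < ε := by
  obtain ⟨y, hy⟩ : ∃ y : Fin n → ℤ, y ≠ 0 := by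
    refine ⟨fun _ => 1, fun h => ?_⟩
    have := congrFun h ⟨0, hn⟩
    simp at this
  set c : ℝ := |∏ k, (G *ᵥ fun l => (y l : ℝ)) k| ^ (Fintype.card ι) with hcdef
  have hc0 : 0 ≤ c := by positivity
  set δ : ℝ := min 1 (ε / (c + 1)) with hδ
  have hδ0 : 0 < δ := by
    rw [hδ]
    exact lt_min one_pos (by positivity)
  obtain ⟨v, hv, hv2⟩ := h δ hδ0
  refine ⟨fun p => v p.1 * y p.2, ?_, ?_⟩
  · intro h0
    obtain ⟨l, hl⟩ : ∃ l, y l ≠ 0 := by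
      by_contra hcon
      push Not at hcon
      exact hy (funext hcon)
    apply hv
    funext a
    have := congrFun h0 (a, l)
    simpa [hl] using this
  · have hentry : ∀ i : ι × Fin n,
        ((S ⊗ₖ G) *ᵥ fun j => ((v j.1 * y j.2 : ℤ) : ℝ)) i
          = (S *ᵥ fun j => (v j : ℝ)) i.1 * (G *ᵥ fun l => (y l : ℝ)) i.2 := by
      rintro ⟨i, k⟩
      simp only [mulVec, dotProduct, Fintype.sum_prod_type, kroneckerMap_apply, Int.cast_mul]
      rw [Finset.sum_mul_sum]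
      refine Finset.sum_congr rfl fun a _ => Finset.sum_congr rfl fun l _ => ?_
      ring
    have hprod : ∏ i : ι × Fin n, ((S ⊗ₖ G) *ᵥ fun j => ((v j.1 * y j.2 : ℤ) : ℝ)) i
          = (∏ i, (S *ᵥ fun j => (v j : ℝ)) i) ^ n
              * (∏ k, (G *ᵥ fun l => (y l : ℝ)) k) ^ (Fintype.card ι) := by
      rw [Finset.prod_congr rfl fun i _ => hentry i, Fintype.prod_prod_type]
      simp only [Finset.prod_mul_distrib, Finset.prod_const, Finset.card_univ, Fintype.card_fin,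
        Finset.prod_pow]
    rw [hprod, abs_mul, abs_pow, abs_pow]
    have h1 : |∏ i, (S *ᵥ fun j => (v j : ℝ)) i| ^ n ≤ δ := by
      have h2 : |∏ i, (S *ᵥ fun j => (v j : ℝ)) i| ≤ 1 := hv2.le.trans (min_le_left _ _)
      calc |∏ i, (S *ᵥ fun j => (v j : ℝ)) i| ^ n
          ≤ |∏ i, (S *ᵥ fun j => (v j : ℝ)) i| ^ 1 :=
            pow_le_pow_of_le_one (abs_nonneg _) h2 hn
        _ ≤ δ := by rw [pow_one]; exact hv2.le
    have h3 : δ * c < ε := by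
      have h4 : δ ≤ ε / (c + 1) := min_le_right _ _
      have h5 : δ * (c + 1) ≤ ε := by rwa [le_div_iff₀ (by positivity)] at h4
      nlinarith
    calc |∏ i, (S *ᵥ fun j => (v j : ℝ)) i| ^ n
          * |∏ k, (G *ᵥ fun l => (y l : ℝ)) k| ^ (Fintype.card ι) ≤ δ * c := by
          rw [hcdef]
          exact mul_le_mul_of_nonneg_right h1 (by positivity)
      _ < ε := h3

/-- small values for even degree -/
lemma small_even {α : ℝ} (hα : Irrational α) (g : Matrix (Fin 2) (Fin 2) ℝ) (hdet : g.det ≠ 0)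
    (hg : g 0 0 = α * g 0 1) (m : ℕ) (hm : 1 ≤ m)
    (hrep : ∀ C : ℝ, ∃ s p ℓ : ℕ, 1 ≤ s ∧ 1 ≤ p ∧ (∀ j < ℓ, pq α (s + p + j) = pq α (s + j)) ∧
      C * (kont (pq α) s p : ℝ) ^ m < (kont (pq α) s ℓ : ℝ) ^ (m + 1)) (δ : ℝ) (hδ : 0 < δ) :
    ∃ v : Fin (2 * m + 1) → ℤ, v ≠ 0 ∧
      |∏ i, (symM (2 * m) g *ᵥ fun j => (v j : ℝ)) i| < δ := by
  obtain ⟨D, hD, hmain⟩ := rep_even hα g hdet hg m
  obtain ⟨s', p', ℓ', hs, hp, hper, hlt⟩ := hrep (D / δ + 1)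
  obtain ⟨s, rfl⟩ := Nat.exists_eq_add_of_le' hs
  obtain ⟨p, rfl⟩ := Nat.exists_eq_add_of_le' hp
  rw [← WM_kont, ← WM_kont] at hlt
  have ha := kont_one_le hα s p
  have hC : 1 ≤ D / δ + 1 := by
    have : 0 < D / δ := by positivity
    linarith
  have ham : 1 ≤ (WM α (s + 1) (p + 1) 0 0 : ℝ) ^ m := one_le_pow₀ ha
  obtain ⟨ℓ, rfl⟩ : ∃ ℓ, ℓ' = ℓ + 1 := by
    rcases Nat.eq_zero_or_pos ℓ' with h0 | h0
    · exfalso
      rw [h0, WM_zero00] at hlt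
      simp only [Int.cast_one, one_pow] at hlt
      nlinarith
    · exact Nat.exists_eq_add_of_le' h0
  have hK := kont_one_le hα s ℓ
  obtain ⟨v, hv, hv2⟩ := hmain s p ℓ hper
  refine ⟨v, hv, lt_of_le_of_lt hv2 ?_⟩
  set a : ℝ := ((WM α (s + 1) (p + 1) 0 0 : ℤ) : ℝ)
  set K : ℝ := ((WM α (s + 1) (ℓ + 1) 0 0 : ℤ) : ℝ)
  have hKp : 0 < K ^ (m + 1) := by positivity
  have h1 : a ^ m / K ^ (m + 1) < 1 / (D / δ + 1) := by
    rw [div_lt_div_iff₀ hKp (by linarith)]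
    linarith
  have h0 : 0 ≤ a ^ m / K ^ (m + 1) := by positivity
  have h2 : a ^ m / K ^ (m + 1) ≤ 1 := by
    refine h1.le.trans ?_
    rw [div_le_one (by linarith)]
    exact hC
  calc D * (a ^ m / K ^ (m + 1)) ^ m ≤ D * (a ^ m / K ^ (m + 1)) ^ 1 :=
        mul_le_mul_of_nonneg_left (pow_le_pow_of_le_one h0 h2 hm) hD.le
    _ < D * (1 / (D / δ + 1)) := by rw [pow_one]; exact mul_lt_mul_of_pos_left h1 hD
    _ < δ := by
        rw [mul_one_div, div_lt_iff₀ (by linarith), mul_add, mul_div_cancel₀ _ hδ.ne']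
        linarith

/-- small values for odd degree -/
lemma small_odd {α : ℝ} (hα : Irrational α) (g : Matrix (Fin 2) (Fin 2) ℝ) (hdet : g.det ≠ 0)
    (hg : g 0 0 = α * g 0 1) (m : ℕ) (hm : 1 ≤ m)
    (hrep : ∀ C : ℝ, ∃ s p ℓ : ℕ, 1 ≤ s ∧ 1 ≤ p ∧ (∀ j < ℓ, pq α (s + p + j) = pq α (s + j)) ∧
      C * (kont (pq α) s p : ℝ) < (kont (pq α) s ℓ : ℝ)) (δ : ℝ) (hδ : 0 < δ) :
    ∃ v : Fin (2 * m + 1 + 1) → ℤ, v ≠ 0 ∧
      |∏ i, (symM (2 * m + 1) g *ᵥ fun j => (v j : ℝ)) i| < δ := by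
  obtain ⟨D, hD, hmain⟩ := rep_odd hα g hdet hg m
  obtain ⟨s', p', ℓ', hs, hp, hper, hlt⟩ := hrep (D / δ + 1)
  obtain ⟨s, rfl⟩ := Nat.exists_eq_add_of_le' hs
  obtain ⟨p, rfl⟩ := Nat.exists_eq_add_of_le' hp
  rw [← WM_kont, ← WM_kont] at hlt
  have ha := kont_one_le hα s p
  have hC : 1 ≤ D / δ + 1 := by
    have : 0 < D / δ := by positivity
    linarith
  obtain ⟨ℓ, rfl⟩ : ∃ ℓ, ℓ' = ℓ + 1 := by
    rcases Nat.eq_zero_or_pos ℓ' with h0 | h0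
    · exfalso
      rw [h0, WM_zero00] at hlt
      simp only [Int.cast_one] at hlt
      nlinarith
    · exact Nat.exists_eq_add_of_le' h0
  have hK := kont_one_le hα s ℓ
  obtain ⟨v, hv, hv2⟩ := hmain s p ℓ hper
  refine ⟨v, hv, lt_of_le_of_lt hv2 ?_⟩
  set a : ℝ := ((WM α (s + 1) (p + 1) 0 0 : ℤ) : ℝ)
  set K : ℝ := ((WM α (s + 1) (ℓ + 1) 0 0 : ℤ) : ℝ)
  have hKp : 0 < K := by linarith
  have h1 : a / K < 1 / (D / δ + 1) := by
    rw [div_lt_div_iff₀ hKp (by linarith)]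
    linarith
  have h0 : 0 ≤ a / K := by positivity
  have h2 : a / K ≤ 1 := by
    refine h1.le.trans ?_
    rw [div_le_one (by linarith)]
    exact hC
  have h3 : 1 ≤ m * (m + 1) := by nlinarith
  calc D * (a / K) ^ (m * (m + 1)) ≤ D * (a / K) ^ 1 :=
        mul_le_mul_of_nonneg_left (pow_le_pow_of_le_one h0 h2 h3) hD.le
    _ < D * (1 / (D / δ + 1)) := by rw [pow_one]; exact mul_lt_mul_of_pos_left h1 hD
    _ < δ := by
        rw [mul_one_div, div_lt_iff₀ (by linarith), mul_add, mul_div_cancel₀ _ hδ.ne']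
        linarith

/-- small values of symmetric powers -/
theorem sym_small {α : ℝ} (hα : Irrational α) (k : ℕ) (hk : 2 ≤ k)
    (hrep : (∀ C : ℝ, ∃ s p ℓ : ℕ, 1 ≤ s ∧ 1 ≤ p ∧
        (∀ j < ℓ, pq α (s + p + j) = pq α (s + j)) ∧
        C * (kont (pq α) s p : ℝ) < (kont (pq α) s ℓ : ℝ)) ∨
      (Even k ∧ ∀ C : ℝ, ∃ s p ℓ : ℕ, 1 ≤ s ∧ 1 ≤ p ∧
        (∀ j < ℓ, pq α (s + p + j) = pq α (s + j)) ∧
        C * (kont (pq α) s p : ℝ) ^ (k / 2) < (kont (pq α) s ℓ : ℝ) ^ (k / 2 + 1)))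
    (g : Matrix (Fin 2) (Fin 2) ℝ) (hdet : g.det ≠ 0) (hg : g 0 0 = α * g 0 1)
    (n : ℕ) (hn : 0 < n) (G : Matrix (Fin n) (Fin n) ℝ) (ε : ℝ) (hε : 0 < ε) :
    ∃ x : Fin (k + 1) × Fin n → ℤ, x ≠ 0 ∧
      |∏ i, ((symM k g ⊗ₖ G) *ᵥ fun j => (x j : ℝ)) i| < ε := by
  refine kron_small _ ?_ n hn G ε hε
  rcases Nat.even_or_odd' k with ⟨m, rfl | rfl⟩
  · refine small_even hα g hdet hg m (by omega) ?_
    rcases hrep with h | ⟨-, h⟩
    · intro C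
      obtain ⟨s, p, ℓ, hs, hp, hper, hlt⟩ := h (max C 1)
      refine ⟨s, p, ℓ, hs, hp, hper, ?_⟩
      obtain ⟨s, rfl⟩ := Nat.exists_eq_add_of_le' hs
      obtain ⟨p, rfl⟩ := Nat.exists_eq_add_of_le' hp
      have ha := kont_one_le hα s p
      rw [WM_kont] at ha
      set a : ℝ := ((kont (pq α) (s + 1) (p + 1) : ℤ) : ℝ)
      set K : ℝ := ((kont (pq α) (s + 1) ℓ : ℤ) : ℝ)
      have h1 : 1 ≤ max C 1 := le_max_right _ _
      have h2 : C ≤ max C 1 := le_max_left _ _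
      have h4 : a ≤ K := by nlinarith
      have h5 : 0 < a ^ m := by positivity
      have h6 : a ^ m ≤ K ^ m := pow_le_pow_left₀ (by linarith) h4 m
      have h7 : max C 1 < K := by nlinarith
      calc C * a ^ m ≤ max C 1 * a ^ m := mul_le_mul_of_nonneg_right h2 h5.le
        _ < K * a ^ m := mul_lt_mul_of_pos_right h7 h5
        _ ≤ K * K ^ m := mul_le_mul_of_nonneg_left h6 (by linarith)
        _ = K ^ (m + 1) := by ring
    · intro C
      have h2 : 2 * m / 2 = m := by omega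
      rw [h2] at h
      exact h C
  · refine small_odd hα g hdet hg m (by omega) ?_
    rcases hrep with h | ⟨h, -⟩
    · exact h
    · exfalso
      rw [Nat.even_iff] at h
      omega

end Pool.Agent.N759.CFr
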