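import Mathlib
import Pool.Agent.N759.CFr.Basic

/-! # Products of four bilinear values and common blocks of continued fractions -/

open Filter Topology Matrix

namespace Pool.Agent.N759.CFr

/-- local form of the entries -/
lemma entry_eq (α β : ℝ) (g h : Matrix (Fin 2) (Fin 2) ℝ) (X₀ : Matrix (Fin 2) (Fin 2) ℤ)
    (k l : ℕ) (i j : Fin 2) :
    (g * (CC α k * X₀ * (CC β l)ᵀ).map (Int.cast : ℤ → ℝ) * hᵀ) i j
      = lu α (g i 0) (g i 1) k * X₀ 0 0 * lu β (h j 0) (h j 1) l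
        + lu α (g i 0) (g i 1) k * X₀ 0 1 * lv β (h j 0) (h j 1) l
        + lv α (g i 0) (g i 1) k * X₀ 1 0 * lu β (h j 0) (h j 1) l
        + lv α (g i 0) (g i 1) k * X₀ 1 1 * lv β (h j 0) (h j 1) l := by
  rw [← (loc_eq α (g i 0) (g i 1) k).1, ← (loc_eq α (g i 0) (g i 1) k).2,
    ← (loc_eq β (h j 0) (h j 1) l).1, ← (loc_eq β (h j 0) (h j 1) l).2]
  simp [Matrix.mul_apply, Fin.sum_univ_two]
  ring

lemma det_ne (α β : ℝ) (X₀ : Matrix (Fin 2) (Fin 2) ℤ) (h : X₀.det ≠ 0) (k l : ℕ) :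
    (CC α k * X₀ * (CC β l)ᵀ).det ≠ 0 := by
  rw [det_mul, det_mul, det_transpose]
  exact mul_ne_zero (mul_ne_zero (det_CC_ne _ _) h) (det_CC_ne _ _)

/-- the constant -/
noncomputable def cst (α : ℝ) (g : Matrix (Fin 2) (Fin 2) ℝ) : ℝ :=
  |g 1 1| + |g 1 0 - pq α 0 * g 1 1|

lemma cst_nonneg (α : ℝ) (g : Matrix (Fin 2) (Fin 2) ℝ) : 0 ≤ cst α g := by
  unfold cst; positivity

/-- direct common blocks -/
lemma direct {α β : ℝ} (hα : Irrational α) (hβ : Irrational β)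
    (g h : Matrix (Fin 2) (Fin 2) ℝ) (hg : g 0 0 = α * g 0 1) (hh : h 0 0 = β * h 0 1)
    (k l m : ℕ) (hc : ∀ r < 2 * m + 1, pq α (k + 1 + r) = pq β (l + 1 + r)) :
    ∃ X : Matrix (Fin 2) (Fin 2) ℤ, X.det ≠ 0 ∧
      |∏ i, ∏ j, (g * X.map (Int.cast : ℤ → ℝ) * hᵀ) i j|
        ≤ (128 * (cst α g * cst β h) ^ 2 * (|g 0 1| * |h 0 1|) ^ 2) * (1 / 2) ^ m := by
  refine ⟨CC α (k + 1) * !![0, 1; -1, 0] * (CC β (l + 1))ᵀ, det_ne _ _ _ (by simp) _ _, ?_⟩
  simp only [Fin.prod_univ_two, entry_eq]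
  simp only [of_apply, cons_val', cons_val_zero, cons_val_one, Int.cast_zero,
    Int.cast_one, Int.cast_neg, mul_zero, zero_mul, zero_add, add_zero, mul_one, mul_neg, neg_mul]
  set x := cq α (k + 1) with hx
  set y := cq β (l + 1) with hy
  have hx1 : 1 < x := one_lt_cq hα k
  have hy1 : 1 < y := one_lt_cq hβ l
  have hdiff : |x - y| ≤ (1 / 2) ^ m := by
    refine diff_le (irr_cq hα _) (irr_cq hβ _) m fun r hr => ?_
    rw [← pq_add, ← pq_add]
    exact hc r hr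
  have hu0 : lu α (g 0 0) (g 0 1) (k + 1) = x * lv α (g 0 0) (g 0 1) (k + 1) := by
    rw [hg]; exact lu_eq hα _ _
  have hs0 : lu β (h 0 0) (h 0 1) (l + 1) = y * lv β (h 0 0) (h 0 1) (l + 1) := by
    rw [hh]; exact lu_eq hβ _ _
  have hk1 : |lv α (g 0 0) (g 0 1) (k + 1)| * (BB α (k + 1) * x) ≤ 2 * |g 0 1| := by
    rw [hg]; exact key_le hα _ _
  have hk2 : |lv β (h 0 0) (h 0 1) (l + 1)| * (BB β (l + 1) * y) ≤ 2 * |h 0 1| := by
    rw [hh]; exact key_le hβ _ _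
  have hv1 : |lv α (g 1 0) (g 1 1) (k + 1)| ≤ cst α g * BB α (k + 1) := abs_lv_le hα _ _ _
  have hu1 : |lu α (g 1 0) (g 1 1) (k + 1)| ≤ cst α g * BB α (k + 1) := abs_lu_le hα _ _ _
  have ht1 : |lv β (h 1 0) (h 1 1) (l + 1)| ≤ cst β h * BB β (l + 1) := abs_lv_le hβ _ _ _
  have hs1 : |lu β (h 1 0) (h 1 1) (l + 1)| ≤ cst β h * BB β (l + 1) := abs_lu_le hβ _ _ _
  rw [hu0, hs0]
  set v0 := lv α (g 0 0) (g 0 1) (k + 1)
  set t0 := lv β (h 0 0) (h 0 1) (l + 1)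
  set u1 := lu α (g 1 0) (g 1 1) (k + 1)
  set v1 := lv α (g 1 0) (g 1 1) (k + 1)
  set s1 := lu β (h 1 0) (h 1 1) (l + 1)
  set t1 := lv β (h 1 0) (h 1 1) (l + 1)
  set C := cst α g
  set D := cst β h
  have hC : 0 ≤ C := cst_nonneg _ _
  have hD : 0 ≤ D := cst_nonneg _ _
  have hB : 0 < BB α (k + 1) := BB_pos hα _
  have hB' : 0 < BB β (l + 1) := BB_pos hβ _
  set B := BB α (k + 1)
  set B' := BB β (l + 1)
  -- the four factors
  have f11 : |x * v0 * t0 + -(v0 * (y * t0))| = |v0| * |t0| * |x - y| := by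
    rw [← abs_mul, ← abs_mul]; congr 1; ring
  have f12 : |x * v0 * t1 + -(v0 * s1)| ≤ |v0| * (2 * x * (D * B')) := by
    have h1 : x * v0 * t1 + -(v0 * s1) = v0 * (x * t1 - s1) := by ring
    rw [h1, abs_mul]
    refine mul_le_mul_of_nonneg_left ?_ (abs_nonneg _)
    have h2 := abs_sub (x * t1) s1
    rw [abs_mul, abs_of_pos (by linarith : 0 < x)] at h2
    have h3 : 0 ≤ D * B' := by positivity
    nlinarith
  have f21 : |u1 * t0 + -(v1 * (y * t0))| ≤ |t0| * (2 * y * (C * B)) := by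
    have h1 : u1 * t0 + -(v1 * (y * t0)) = t0 * (u1 - y * v1) := by ring
    rw [h1, abs_mul]
    refine mul_le_mul_of_nonneg_left ?_ (abs_nonneg _)
    have h2 := abs_sub u1 (y * v1)
    rw [abs_mul, abs_of_pos (by linarith : 0 < y)] at h2
    have h3 : 0 ≤ C * B := by positivity
    nlinarith
  have f22 : |u1 * t1 + -(v1 * s1)| ≤ 2 * (C * B) * (D * B') := by
    have h2 := abs_sub (u1 * t1) (v1 * s1)
    rw [abs_mul, abs_mul, ← sub_eq_add_neg] at *
    have h3 : |u1| * |t1| ≤ (C * B) * (D * B') := mul_le_mul hu1 ht1 (abs_nonneg _) (by positivity)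
    have h4 : |v1| * |s1| ≤ (C * B) * (D * B') := mul_le_mul hv1 hs1 (abs_nonneg _) (by positivity)
    linarith
  rw [abs_mul, abs_mul, abs_mul, f11]
  calc |v0| * |t0| * |x - y| * |x * v0 * t1 + -(v0 * s1)|
        * (|u1 * t0 + -(v1 * (y * t0))| * |u1 * t1 + -(v1 * s1)|)
      ≤ |v0| * |t0| * (1 / 2) ^ m * (|v0| * (2 * x * (D * B')))
        * ((|t0| * (2 * y * (C * B))) * (2 * (C * B) * (D * B'))) := by gcongr
    _ = 8 * (C * D) ^ 2 * ((|v0| * (B * x)) ^ 2 * (|t0| * (B' * y)) ^ 2) * (1 / (x * y))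
          * (1 / 2) ^ m := by
        field_simp
        ring
    _ ≤ 8 * (C * D) ^ 2 * ((2 * |g 0 1|) ^ 2 * (2 * |h 0 1|) ^ 2) * 1 * (1 / 2) ^ m := by
        have h1 : 1 / (x * y) ≤ 1 := by
          rw [div_le_one (by positivity)]; nlinarith
        gcongr
    _ = _ := by ring

lemma rev_eq {α : ℝ} (hα : Irrational α) (β s t : ℝ) (ℓ : ℕ) : ∀ k j : ℕ,
    (∀ r < ℓ, pq α (k + r) = pq β (j + (ℓ - 1 - r))) →
    (cq α k * lu β s t (j + ℓ) + lv β s t (j + ℓ)) * pr (cq α k) ℓ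
      = cq α (k + ℓ) * lu β s t j + lv β s t j := by
  induction ℓ with
  | zero => intro k j _; simp [pr_zero]
  | succ ℓ ih =>
    intro k j h
    have h1 := ih (k + 1) j fun r hr => by
      have h2 := h (r + 1) (by omega)
      have h3 : ℓ + 1 - 1 - (r + 1) = ℓ - 1 - r := by omega
      rw [h3] at h2
      rw [← h2]
      congr 1
      ring
    have h4 : pq α k = pq β (j + ℓ) := by
      have := h 0 (by omega)
      simpa using this
    have h0 : (0 : ℝ) < cq α (k + 1) := by linarith [one_lt_cq hα k]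
    have h5 : pr (cq α k) (ℓ + 1) = cq α (k + 1) * pr (cq α (k + 1)) ℓ := by
      rw [Nat.add_comm ℓ 1, pr_add, pr_succ, pr_zero, one_mul, zero_add, ← cq_add]
    have h6 : cq α k - pq β (j + ℓ) = (cq α (k + 1))⁻¹ := by
      rw [← h4, cq_eq (α := α) k]; ring
    have h7 : cq α k * lu β s t (j + (ℓ + 1)) + lv β s t (j + (ℓ + 1))
        = (cq α (k + 1))⁻¹ * (cq α (k + 1) * lu β s t (j + ℓ) + lv β s t (j + ℓ)) := by
      rw [← Nat.add_assoc, lu_succ, lv_succ, mul_add, ← mul_assoc, inv_mul_cancel₀ h0.ne', ← h6]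
      ring
    have h8 : k + (ℓ + 1) = k + 1 + ℓ := by ring
    rw [h5, h7, h8, ← h1]
    field_simp

/-- reversed common blocks -/
lemma reversed {α β : ℝ} (hα : Irrational α) (hβ : Irrational β)
    (g h : Matrix (Fin 2) (Fin 2) ℝ) (hg : g 0 0 = α * g 0 1) (hh : h 0 0 = β * h 0 1)
    (k l m : ℕ) (hc : ∀ r < 2 * m + 1, pq α (k + 1 + r) = pq β (l + 1 + (2 * m + 1 - 1 - r))) :
    ∃ X : Matrix (Fin 2) (Fin 2) ℤ, X.det ≠ 0 ∧
      |∏ i, ∏ j, (g * X.map (Int.cast : ℤ → ℝ) * hᵀ) i j|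
        ≤ (256 * (cst α g * cst β h) ^ 2 * (|g 0 1| * |h 0 1|) ^ 2) * (1 / 2) ^ m := by
  set L := l + 1 + (2 * m + 1) with hL
  obtain ⟨L', hL'⟩ : ∃ L', L = L' + 1 := ⟨l + 1 + 2 * m, by omega⟩
  refine ⟨CC α (k + 1) * 1 * (CC β L)ᵀ, det_ne _ _ _ (by simp) _ _, ?_⟩
  simp only [Fin.prod_univ_two, entry_eq]
  simp only [Matrix.one_apply_eq, Matrix.one_apply_ne (show (0 : Fin 2) ≠ 1 by decide),
    Matrix.one_apply_ne (show (1 : Fin 2) ≠ 0 by decide), Int.cast_zero,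
    Int.cast_one, mul_zero, zero_mul, add_zero, mul_one]
  set x := cq α (k + 1) with hx
  set y := cq β L with hy
  have hx1 : 1 < x := one_lt_cq hα k
  have hy1 : 1 < y := by rw [hy, hL']; exact one_lt_cq hβ _
  have hu0 : lu α (g 0 0) (g 0 1) (k + 1) = x * lv α (g 0 0) (g 0 1) (k + 1) := by
    rw [hg]; exact lu_eq hα _ _
  have hs0 : lu β (h 0 0) (h 0 1) L = y * lv β (h 0 0) (h 0 1) L := by
    rw [hh]; exact lu_eq hβ _ _
  have hk1 : |lv α (g 0 0) (g 0 1) (k + 1)| * (BB α (k + 1) * x) ≤ 2 * |g 0 1| := by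
    rw [hg]; exact key_le hα _ _
  have hk2 : |lv β (h 0 0) (h 0 1) L| * (BB β L * y) ≤ 2 * |h 0 1| := by
    rw [hh, hy, hL']; exact key_le hβ _ _
  have hv1 : |lv α (g 1 0) (g 1 1) (k + 1)| ≤ cst α g * BB α (k + 1) := abs_lv_le hα _ _ _
  have hu1 : |lu α (g 1 0) (g 1 1) (k + 1)| ≤ cst α g * BB α (k + 1) := abs_lu_le hα _ _ _
  have ht1 : |lv β (h 1 0) (h 1 1) L| ≤ cst β h * BB β L := abs_lv_le hβ _ _ _
  have hs1 : |lu β (h 1 0) (h 1 1) L| ≤ cst β h * BB β L := by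
    rw [hL']; exact abs_lu_le hβ _ _ _
  have hrev := rev_eq hα β (h 1 0) (h 1 1) (2 * m + 1) (k + 1) (l + 1) hc
  rw [← hL, ← hx] at hrev
  have hv2 : |lv β (h 1 0) (h 1 1) (l + 1)| ≤ cst β h * BB β (l + 1) := abs_lv_le hβ _ _ _
  have hu2 : |lu β (h 1 0) (h 1 1) (l + 1)| ≤ cst β h * BB β (l + 1) := abs_lu_le hβ _ _ _
  have hxi : Irrational x := irr_cq hα _
  have hz1 : 1 < cq α (k + 1 + (2 * m + 1)) := by
    rw [show k + 1 + (2 * m + 1) = (k + 1 + 2 * m) + 1 by ring]; exact one_lt_cq hα _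
  have hpr : pr x (2 * m + 1) = pr x (2 * m) * cq α (k + 1 + (2 * m + 1)) := by
    rw [pr_succ, cq_add α (k + 1)]
  have hp2 := pow_le_pr hxi m
  rw [hu0, hs0]
  have hBm : BB β (l + 1) ≤ BB β L := BB_mono hβ (by omega)
  have hB : 0 < BB α (k + 1) := BB_pos hα _
  have hB' : 0 < BB β L := BB_pos hβ _
  have hB'' : 0 < BB β (l + 1) := BB_pos hβ _
  set v0 := lv α (g 0 0) (g 0 1) (k + 1)
  set t0 := lv β (h 0 0) (h 0 1) L
  set u1 := lu α (g 1 0) (g 1 1) (k + 1)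
  set v1 := lv α (g 1 0) (g 1 1) (k + 1)
  set s1 := lu β (h 1 0) (h 1 1) L
  set t1 := lv β (h 1 0) (h 1 1) L
  set s2 := lu β (h 1 0) (h 1 1) (l + 1)
  set t2 := lv β (h 1 0) (h 1 1) (l + 1)
  set C := cst α g
  set D := cst β h
  have hC : 0 ≤ C := cst_nonneg _ _
  have hD : 0 ≤ D := cst_nonneg _ _
  set B := BB α (k + 1)
  set B' := BB β L
  set B'' := BB β (l + 1)
  set z := cq α (k + 1 + (2 * m + 1))
  set p := pr x (2 * m)
  have hpow : (0 : ℝ) < 2 ^ m := by positivity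
  have hp0 : 0 < p := lt_of_lt_of_le hpow hp2
  -- the small factor
  have hsm : |x * s1 + t1| ≤ 2 * (D * B') * (1 / 2) ^ m := by
    have h1 : |x * s1 + t1| * (p * z) = |z * s2 + t2| := by
      rw [← hrev, hpr, abs_mul, abs_of_pos (mul_pos hp0 (by linarith))]
    have h2 : |z * s2 + t2| ≤ 2 * z * (D * B'') := by
      have h3 := abs_add_le (z * s2) t2
      rw [abs_mul, abs_of_pos (by linarith : 0 < z)] at h3
      have h4 : 0 ≤ D * B'' := by positivity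
      nlinarith
    have h5 : |x * s1 + t1| * p ≤ 2 * (D * B'') := by
      have h6 : (|x * s1 + t1| * p) * z ≤ (2 * (D * B'')) * z := by nlinarith
      exact le_of_mul_le_mul_right h6 (by linarith)
    have h7 : |x * s1 + t1| * 2 ^ m ≤ 2 * (D * B') := by
      have h8 : |x * s1 + t1| * 2 ^ m ≤ |x * s1 + t1| * p :=
        mul_le_mul_of_nonneg_left hp2 (abs_nonneg _)
      have h9 : D * B'' ≤ D * B' := mul_le_mul_of_nonneg_left hBm hD
      linarith
    rw [one_div, inv_pow, ← div_eq_mul_inv, le_div_iff₀ hpow]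
    exact h7
  have f11 : |x * v0 * (y * t0) + v0 * t0| ≤ |v0| * |t0| * (2 * x * y) := by
    have h1 : x * v0 * (y * t0) + v0 * t0 = v0 * t0 * (x * y + 1) := by ring
    rw [h1, abs_mul, abs_mul]
    refine mul_le_mul_of_nonneg_left ?_ (by positivity)
    rw [abs_of_pos (by positivity)]
    nlinarith
  have f12 : |x * v0 * s1 + v0 * t1| ≤ |v0| * (2 * (D * B') * (1 / 2) ^ m) := by
    have h1 : x * v0 * s1 + v0 * t1 = v0 * (x * s1 + t1) := by ring
    rw [h1, abs_mul]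
    exact mul_le_mul_of_nonneg_left hsm (abs_nonneg _)
  have f21 : |u1 * (y * t0) + v1 * t0| ≤ |t0| * (2 * y * (C * B)) := by
    have h1 : u1 * (y * t0) + v1 * t0 = t0 * (y * u1 + v1) := by ring
    rw [h1, abs_mul]
    refine mul_le_mul_of_nonneg_left ?_ (abs_nonneg _)
    have h2 := abs_add_le (y * u1) v1
    rw [abs_mul, abs_of_pos (by linarith : 0 < y)] at h2
    have h3 : 0 ≤ C * B := by positivity
    nlinarith
  have f22 : |u1 * s1 + v1 * t1| ≤ 2 * (C * B) * (D * B') := by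
    have h2 := abs_add_le (u1 * s1) (v1 * t1)
    rw [abs_mul, abs_mul] at h2
    have h3 : |u1| * |s1| ≤ (C * B) * (D * B') := mul_le_mul hu1 hs1 (abs_nonneg _) (by positivity)
    have h4 : |v1| * |t1| ≤ (C * B) * (D * B') := mul_le_mul hv1 ht1 (abs_nonneg _) (by positivity)
    linarith
  rw [abs_mul, abs_mul, abs_mul]
  calc |x * v0 * (y * t0) + v0 * t0| * |x * v0 * s1 + v0 * t1|
        * (|u1 * (y * t0) + v1 * t0| * |u1 * s1 + v1 * t1|)
      ≤ |v0| * |t0| * (2 * x * y) * (|v0| * (2 * (D * B') * (1 / 2) ^ m))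
        * ((|t0| * (2 * y * (C * B))) * (2 * (C * B) * (D * B'))) := by gcongr
    _ = 16 * (C * D) ^ 2 * ((|v0| * (B * x)) ^ 2 * (|t0| * (B' * y)) ^ 2) * (1 / x)
          * (1 / 2) ^ m := by
        field_simp
        ring
    _ ≤ 16 * (C * D) ^ 2 * ((2 * |g 0 1|) ^ 2 * (2 * |h 0 1|) ^ 2) * 1 * (1 / 2) ^ m := by
        have h1 : 1 / x ≤ 1 := by
          rw [div_le_one (by positivity)]; linarith
        gcongr
    _ = _ := by ring

/-- small values when the continued fractions have arbitrarily long common blocks -/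
theorem core {α β : ℝ} (hα : Irrational α) (hβ : Irrational β)
    (hc : ∀ ℓ : ℕ, ∃ i j : ℕ, (∀ r < ℓ, pq α (i + r) = pq β (j + r)) ∨
      (∀ r < ℓ, pq α (i + r) = pq β (j + (ℓ - 1 - r))))
    (g h : Matrix (Fin 2) (Fin 2) ℝ) (hg : g 0 0 = α * g 0 1) (hh : h 0 0 = β * h 0 1)
    (ε : ℝ) (hε : 0 < ε) :
    ∃ X : Matrix (Fin 2) (Fin 2) ℤ, X.det ≠ 0 ∧
      |∏ i, ∏ j, (g * X.map (Int.cast : ℤ → ℝ) * hᵀ) i j| < ε := by
  set K := 256 * (cst α g * cst β h) ^ 2 * (|g 0 1| * |h 0 1|) ^ 2 with hK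
  have hK0 : 0 ≤ K := by positivity
  obtain ⟨m, hm⟩ := exists_pow_lt_of_lt_one (show 0 < ε / (K + 1) by positivity)
    (show (1 / 2 : ℝ) < 1 by norm_num)
  have hfin : ∀ v : ℝ, v ≤ K * (1 / 2) ^ m → v < ε := by
    intro v hv
    have h1 : (1 / 2 : ℝ) ^ m * (K + 1) < ε := by
      rwa [lt_div_iff₀ (by positivity)] at hm
    have h2 : (0 : ℝ) < (1 / 2) ^ m := by positivity
    nlinarith
  obtain ⟨i, j, hij | hij⟩ := hc (2 * m + 3)
  · obtain ⟨X, hX, hX2⟩ := direct hα hβ g h hg hh i j m fun r hr => by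
      have := hij (r + 1) (by omega)
      rw [show i + 1 + r = i + (r + 1) by ring, show j + 1 + r = j + (r + 1) by ring]
      exact this
    refine ⟨X, hX, hfin _ (hX2.trans ?_)⟩
    rw [hK]
    have h1 : 0 ≤ (cst α g * cst β h) ^ 2 * (|g 0 1| * |h 0 1|) ^ 2 * (1 / 2) ^ m := by positivity
    nlinarith
  · obtain ⟨X, hX, hX2⟩ := reversed hα hβ g h hg hh i j m fun r hr => by
      have := hij (r + 1) (by omega)
      rw [show i + 1 + r = i + (r + 1) by ring,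
        show j + 1 + (2 * m + 1 - 1 - r) = j + (2 * m + 3 - 1 - (r + 1)) by omega]
      exact this
    exact ⟨X, hX, hfin _ hX2⟩

end Pool.Agent.N759.CFr
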