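import Mathlib
import Pool.Agent.N759.CFr.SymFinal
import Pool.Agent.N759.CFr.Tensor

/-! # Small values of symmetric powers from palindromes -/

open Polynomial Matrix Kronecker

namespace Pool.Agent.N759.CFr

/-- mirrored blocks give a nearly vanishing bilinear expression -/
lemma rev_small {α β : ℝ} (hα : Irrational α) (hβ : Irrational β) (s t : ℝ) (k l m : ℕ)
    (hc : ∀ r < 2 * m + 1, pq α (k + 1 + r) = pq β (l + 1 + (2 * m + 1 - 1 - r))) :
    |cq α (k + 1) * lu β s t (l + 1 + (2 * m + 1)) + lv β s t (l + 1 + (2 * m + 1))|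
      ≤ 2 * ((|t| + |s - pq β 0 * t|) * BB β (l + 1 + (2 * m + 1))) * (1 / 2) ^ m := by
  have hrev := rev_eq hα β s t (2 * m + 1) (k + 1) (l + 1) hc
  have hv2 : |lv β s t (l + 1)| ≤ (|t| + |s - pq β 0 * t|) * BB β (l + 1) := abs_lv_le hβ _ _ _
  have hu2 : |lu β s t (l + 1)| ≤ (|t| + |s - pq β 0 * t|) * BB β (l + 1) := abs_lu_le hβ _ _ _
  set x := cq α (k + 1) with hx
  have hxi : Irrational x := irr_cq hα _
  have hz1 : 1 < cq α (k + 1 + (2 * m + 1)) := by
    rw [show k + 1 + (2 * m + 1) = (k + 1 + 2 * m) + 1 by ring]; exact one_lt_cq hα _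
  have hpr : pr x (2 * m + 1) = pr x (2 * m) * cq α (k + 1 + (2 * m + 1)) := by
    rw [pr_succ, cq_add α (k + 1)]
  have hp2 := pow_le_pr hxi m
  have hBm : BB β (l + 1) ≤ BB β (l + 1 + (2 * m + 1)) := BB_mono hβ (by omega)
  have hB' : 0 < BB β (l + 1 + (2 * m + 1)) := BB_pos hβ _
  have hB'' : 0 < BB β (l + 1) := BB_pos hβ _
  set s1 := lu β s t (l + 1 + (2 * m + 1))
  set t1 := lv β s t (l + 1 + (2 * m + 1))
  set s2 := lu β s t (l + 1)
  set t2 := lv β s t (l + 1)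
  have hD : 0 ≤ |t| + |s - pq β 0 * t| := by positivity
  set D := |t| + |s - pq β 0 * t|
  set B' := BB β (l + 1 + (2 * m + 1))
  set B'' := BB β (l + 1)
  set z := cq α (k + 1 + (2 * m + 1))
  set p := pr x (2 * m)
  have hpow : (0 : ℝ) < 2 ^ m := by positivity
  have hp0 : 0 < p := lt_of_lt_of_le hpow hp2
  have h1 : |x * s1 + t1| * (p * z) = |z * s2 + t2| := by
    rw [← hrev, hpr, abs_mul, abs_of_pos (mul_pos hp0 (by linarith))]
  have h2 : |z * s2 + t2| ≤ 2 * z * (D * B'') := by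
    have h3 := abs_add_le (z * s2) t2
    rw [abs_mul, abs_of_pos (by linarith : 0 < z)] at h3
    have h4 : 0 ≤ D * B'' := by positivity
    nlinarith
  have h5 : |x * s1 + t1| * p ≤ 2 * (D * B'') := by
    have h6 : (|x * s1 + t1| * p) * z ≤ (2 * (D * B'')) * z := by nlinarith
    exact le_of_mul_le_mul_right h6 (by linarith)
  have h7 : |x * s1 + t1| * 2 ^ m ≤ 2 * (D * B') := by
    have h8 : |x * s1 + t1| * 2 ^ m ≤ |x * s1 + t1| * p :=
      mul_le_mul_of_nonneg_left hp2 (abs_nonneg _)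
    have h9 : D * B'' ≤ D * B' := mul_le_mul_of_nonneg_left hBm hD
    linarith
  rw [one_div, inv_pow, ← div_eq_mul_inv, le_div_iff₀ hpow]
  exact h7

lemma coeff_zero_pow (q0 q1 q2 : ℝ) (m : ℕ) :
    ((C q0 * X ^ 2 + C q1 * X + C q2 : ℝ[X]) ^ m).coeff 0 = q2 ^ m := by
  induction m with
  | zero => simp
  | succ m ih =>
    rw [pow_succ', coeff_quad_mul, ih, pow_succ']
    simp

lemma coeff_one_pow (q0 q1 q2 : ℝ) (m : ℕ) :
    ((C q0 * X ^ 2 + C q1 * X + C q2 : ℝ[X]) ^ (m + 1)).coeff 1 = (m + 1) * q1 * q2 ^ m := by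
  induction m with
  | zero =>
    rw [zero_add, pow_one]
    simp [coeff_X, coeff_C, coeff_X_pow]
  | succ m ih =>
    rw [pow_succ', coeff_quad_mul, ih]
    simp only [show ¬ (2 ≤ 1) by norm_num, if_false, le_refl, if_true, Nat.sub_self]
    rw [coeff_zero_pow]
    push_cast
    ring

/-- the product of the coefficients when the middle coefficient is small -/
lemma prod_coeff_mid {q0 q1 q2 b η σ : ℝ} (hb : 0 < b) (hη : 0 ≤ η) (hη1 : η ≤ 1) (hσ : 0 < σ)
    (h0 : |q0| ≤ b * σ) (h1 : |q1| ≤ b * η) (h2 : |q2| ≤ b / σ) (m : ℕ) :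
    |∏ i ∈ Finset.range (2 * (m + 1) + 1),
        ((C q0 * X ^ 2 + C q1 * X + C q2 : ℝ[X]) ^ (m + 1)).coeff i|
      ≤ (3 * b) ^ ((m + 1) * (2 * (m + 1) + 1)) * ((m + 1) * η) := by
  rw [Finset.abs_prod]
  have hle : ∀ i ∈ Finset.range (2 * (m + 1) + 1),
      |((C q0 * X ^ 2 + C q1 * X + C q2 : ℝ[X]) ^ (m + 1)).coeff i|
        ≤ ((3 * b) ^ (m + 1) * σ ^ ((i : ℤ) - ((m + 1 : ℕ) : ℤ))) * (if i = 1 then (m + 1) * η else 1) := by
    intro i _
    split_ifs with hi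
    · subst hi
      rw [coeff_one_pow, abs_mul, abs_mul, abs_pow]
      have e1 : |((m : ℝ) + 1)| = m + 1 := abs_of_pos (by positivity)
      rw [e1]
      have e2 : |q2| ^ m ≤ (b / σ) ^ m := pow_le_pow_left₀ (abs_nonneg _) h2 m
      have e3 : σ ^ (((1 : ℕ) : ℤ) - ((m + 1 : ℕ) : ℤ)) = (σ ^ m)⁻¹ := by
        rw [show ((1 : ℕ) : ℤ) - ((m + 1 : ℕ) : ℤ) = -(m : ℤ) by push_cast; ring, _root_.zpow_neg,
          _root_.zpow_natCast]
      rw [e3]
      calc ((m : ℝ) + 1) * |q1| * |q2| ^ m ≤ ((m : ℝ) + 1) * (b * η) * (b / σ) ^ m := by gcongr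
        _ = b ^ (m + 1) * (σ ^ m)⁻¹ * ((m + 1) * η) := by rw [div_pow]; ring
        _ ≤ (3 * b) ^ (m + 1) * (σ ^ m)⁻¹ * ((m + 1) * η) := by
            have : b ≤ 3 * b := by linarith
            gcongr
    · rw [mul_one]
      have := coeff_pow_le hb one_pos le_rfl hσ (q0 := q0) (q1 := q1) (q2 := q2)
        (by rw [mul_one]; exact h0) (h1.trans (by nlinarith)) (by rw [mul_one]; exact h2) (m + 1) i
      rwa [one_pow, mul_one] at this
  calc _ ≤ ∏ i ∈ Finset.range (2 * (m + 1) + 1),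
        (((3 * b) ^ (m + 1) * σ ^ ((i : ℤ) - ((m + 1 : ℕ) : ℤ))) * (if i = 1 then (m + 1) * η else 1)) :=
        Finset.prod_le_prod (fun i _ => abs_nonneg _) hle
    _ = _ := by
        rw [Finset.prod_mul_distrib, Finset.prod_mul_distrib, prod_sigma hσ, Finset.prod_const,
          Finset.card_range, ← pow_mul, mul_one]
        congr 1
        rw [Finset.prod_ite_eq' (Finset.range (2 * (m + 1) + 1)) 1 (fun _ => ((m : ℝ) + 1) * η)]
        rw [if_pos (Finset.mem_range.2 (by omega))]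

/-- bound of the product at a palindrome -/
lemma pal_bound {α : ℝ} (hα : Irrational α) (g : Matrix (Fin 2) (Fin 2) ℝ) (hdet : g.det ≠ 0)
    (hg : g 0 0 = α * g 0 1) (M : ℕ) (hM : 1 ≤ M) :
    ∃ D : ℝ, 0 < D ∧ ∀ l m : ℕ,
      ((∀ r < 2 * m + 1, pq α (l + 1 + (2 * m + 1) + r) = pq α (l + 1 + (2 * m + 1 - 1 - r))) ∨
       (∀ r < 2 * m + 1, pq α (l + 1 + (2 * m + 1) + 1 + r) = pq α (l + 1 + (2 * m + 1 - 1 - r)))) →
      1 ≤ m →
      ∃ v : Fin (2 * M + 1) → ℤ, v ≠ 0 ∧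
        |∏ i, (symM (2 * M) g).mulVec (fun j => (v j : ℝ)) i| ≤ D * (1 / 2) ^ m := by
  obtain ⟨M, rfl⟩ := Nat.exists_eq_add_of_le' hM
  set V := |g 0 1| + 1 with hV
  set c := |g 1 1| + |g 1 0 - pq α 0 * g 1 1| + 1 with hc
  have hV1 : 1 ≤ V := by rw [hV]; linarith [abs_nonneg (g 0 1)]
  have hc1 : 1 ≤ c := by rw [hc]; linarith [abs_nonneg (g 1 1), abs_nonneg (g 1 0 - pq α 0 * g 1 1)]
  refine ⟨(3 * (6 * c * V)) ^ ((M + 1) * (2 * (M + 1) + 1)) * ((M + 1) * 2), by positivity,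
    fun l m hcase hm => ?_⟩
  have hη0 : (0 : ℝ) ≤ 2 * (1 / 2) ^ m := by positivity
  have hη1 : (2 : ℝ) * (1 / 2) ^ m ≤ 1 := by
    obtain ⟨m', rfl⟩ := Nat.exists_eq_add_of_le' hm
    rw [pow_succ]
    have : ((1 : ℝ) / 2) ^ m' ≤ 1 := pow_le_one₀ (by norm_num) (by norm_num)
    linarith
  set i := l + 1 + (2 * m + 1) with hi
  obtain ⟨i', hi'⟩ : ∃ i', i = i' + 1 := ⟨l + 1 + 2 * m, by omega⟩
  have hVle : |g 0 1| ≤ V := by rw [hV]; linarith
  have hcle : |g 1 1| + |g 1 0 - pq α 0 * g 1 1| ≤ c := by rw [hc]; linarith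
  rcases hcase with hp | hp
  · -- palindromes of even length, centre before position `i`
    have hBi : 0 < BB α i := BB_pos hα _
    have hx1 : 1 < cq α i := by rw [hi']; exact one_lt_cq hα _
    have hsm : |cq α i * lu α (g 1 0) (g 1 1) i + lv α (g 1 0) (g 1 1) i|
        ≤ 2 * (c * BB α i) * (1 / 2) ^ m := by
      have h1 := rev_small hα hα (g 1 0) (g 1 1) i' l m (by
        intro r hr
        rw [← hi']
        exact hp r hr)
      rw [← hi', ← hi] at h1
      refine h1.trans ?_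
      gcongr
    have hu0 : lu α (g 0 0) (g 0 1) i = cq α i * lv α (g 0 0) (g 0 1) i := by
      rw [hg]; exact lu_eq hα _ _
    have hk1 : |lv α (g 0 0) (g 0 1) i| * (BB α i * cq α i) ≤ 2 * V := by
      have : |lv α (g 0 0) (g 0 1) i| * (BB α i * cq α i) ≤ 2 * |g 0 1| := by
        rw [hg, hi']; exact key_le hα _ _
      linarith
    have hv1 : |lv α (g 1 0) (g 1 1) i| ≤ c * BB α i :=
      (abs_lv_le hα _ _ _).trans (mul_le_mul_of_nonneg_right hcle hBi.le)
    have hu1 : |lu α (g 1 0) (g 1 1) i| ≤ c * BB α i := by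
      have h1 : |lu α (g 1 0) (g 1 1) i| ≤ (|g 1 1| + |g 1 0 - pq α 0 * g 1 1|) * BB α i := by
        rw [hi']; exact abs_lu_le hα _ _ _
      exact h1.trans (mul_le_mul_of_nonneg_right hcle hBi.le)
    obtain ⟨v, hv0, hv⟩ := (exists_form α hdet i !![0, -1; 1, 0] (by simp) (M + 1)).1
    refine ⟨v, hv0, ?_⟩
    have e0 : ∏ i, (symM (2 * (M + 1)) g).mulVec (fun j => (v j : ℝ)) i
      = ∏ j ∈ Finset.range (2 * (M + 1) + 1), ((C (qf !![0, -1; 1, 0] (lu α (g 0 0) (g 0 1) i)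
          (lv α (g 0 0) (g 0 1) i)) * X ^ 2
            + C (qp !![0, -1; 1, 0] (lu α (g 0 0) (g 0 1) i) (lv α (g 0 0) (g 0 1) i)
                (lu α (g 1 0) (g 1 1) i) (lv α (g 1 0) (g 1 1) i)) * X
            + C (qf !![0, -1; 1, 0] (lu α (g 1 0) (g 1 1) i) (lv α (g 1 0) (g 1 1) i)) : ℝ[X])
              ^ (M + 1)).coeff j := by
      rw [Finset.prod_range]
      exact Finset.prod_congr rfl fun i _ => hv i
    rw [e0]
    set x := cq α i
    set v0 := lv α (g 0 0) (g 0 1) i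
    set u1 := lu α (g 1 0) (g 1 1) i
    set v1 := lv α (g 1 0) (g 1 1) i
    set B := BB α i
    have hb : 0 < 6 * c * V := by positivity
    have hσ : 0 < (6 * c * V) / (2 * c ^ 2 * B ^ 2) := by positivity
    have hv0x : (v0 * x) ^ 2 * B ^ 2 ≤ 4 * V ^ 2 := by
      have h1 : (|v0| * (B * x)) ^ 2 ≤ (2 * V) ^ 2 := by
        refine pow_le_pow_left₀ ?_ hk1 2
        positivity
      have h2 : (|v0| * (B * x)) ^ 2 = (v0 * x) ^ 2 * B ^ 2 := by
        rw [mul_pow, sq_abs]; ring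
      rw [h2] at h1
      nlinarith
    refine (prod_coeff_mid hb hη0 hη1 hσ ?_ ?_ ?_ M).trans (le_of_eq (by ring))
    · rw [hu0]
      have h1 : qf !![0, -1; 1, 0] (x * v0) v0 = v0 ^ 2 * (x ^ 2 + 1) := by
        simp [qf]; ring
      rw [h1, abs_of_nonneg (by positivity)]
      have h2 : (6 * c * V) * ((6 * c * V) / (2 * c ^ 2 * B ^ 2)) = 18 * V ^ 2 / B ^ 2 := by
        field_simp
        norm_num
      rw [h2, le_div_iff₀ (by positivity)]
      have h3 : v0 ^ 2 * (x ^ 2 + 1) * B ^ 2 ≤ 2 * ((v0 * x) ^ 2 * B ^ 2) := by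
        have h4 : 0 ≤ v0 ^ 2 * B ^ 2 := by positivity
        have h5 : 1 ≤ x ^ 2 := by nlinarith
        nlinarith
      nlinarith [sq_nonneg V]
    · rw [hu0]
      have h1 : qp !![0, -1; 1, 0] (x * v0) v0 u1 v1 = 2 * v0 * (x * u1 + v1) := by
        simp [qp]; ring
      rw [h1, abs_mul, abs_mul, abs_two]
      have h2 : 2 * |v0| * |x * u1 + v1| ≤ 2 * |v0| * (2 * (c * B) * (1 / 2) ^ m) :=
        mul_le_mul_of_nonneg_left hsm (by positivity)
      have h3 : |v0| * B ≤ 2 * V := by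
        have h4 : |v0| * B ≤ |v0| * (B * x) := by
          have : B ≤ B * x := by nlinarith
          exact mul_le_mul_of_nonneg_left this (abs_nonneg _)
        linarith
      calc 2 * |v0| * |x * u1 + v1| ≤ 2 * |v0| * (2 * (c * B) * (1 / 2) ^ m) := h2
        _ = (|v0| * B) * (4 * c * (1 / 2) ^ m) := by ring
        _ ≤ (2 * V) * (4 * c * (1 / 2) ^ m) := by gcongr
        _ ≤ 6 * c * V * (2 * (1 / 2) ^ m) := by
            have : 0 ≤ c * V * (1 / 2) ^ m := by positivity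
            nlinarith
    · have h1 : qf !![0, -1; 1, 0] u1 v1 = u1 ^ 2 + v1 ^ 2 := by simp [qf]
      rw [h1, abs_of_nonneg (by positivity)]
      have h2 : (6 * c * V) / ((6 * c * V) / (2 * c ^ 2 * B ^ 2)) = 2 * c ^ 2 * B ^ 2 := by
        field_simp
      rw [h2]
      have h3 : u1 ^ 2 ≤ (c * B) ^ 2 := by
        rw [← sq_abs u1]; exact pow_le_pow_left₀ (abs_nonneg _) hu1 2
      have h4 : v1 ^ 2 ≤ (c * B) ^ 2 := by
        rw [← sq_abs v1]; exact pow_le_pow_left₀ (abs_nonneg _) hv1 2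
      nlinarith
  · -- palindromes of odd length, centre the digit at position `i`
    have hBi : 0 < BB α i := BB_pos hα _
    have hBi1 : 0 < BB α (i + 1) := BB_pos hα _
    have hBle : BB α i ≤ BB α (i + 1) := BB_le_succ hα _
    have hx1 : 1 < cq α (i + 1) := one_lt_cq hα _
    have ha1 : 1 ≤ pq α i := by rw [hi']; exact one_le_pq hα _
    have hBa : (pq α i : ℝ) * BB α i ≤ BB α (i + 1) := by
      rw [hi', show i' + 1 + 1 = i' + 2 from rfl, BB]
      linarith [BB_pos hα i']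
    have hsm : |cq α (i + 1) * lu α (g 1 0) (g 1 1) i + lv α (g 1 0) (g 1 1) i|
        ≤ 2 * (c * BB α i) * (1 / 2) ^ m := by
      have h1 := rev_small hα hα (g 1 0) (g 1 1) i l m (by
        intro r hr
        exact hp r hr)
      rw [← hi] at h1
      refine h1.trans ?_
      gcongr
    have hu0 : lu α (g 0 0) (g 0 1) (i + 1) = cq α (i + 1) * lv α (g 0 0) (g 0 1) (i + 1) := by
      rw [hg]; exact lu_eq hα _ _
    have hk1 : |lv α (g 0 0) (g 0 1) (i + 1)| * (BB α (i + 1) * cq α (i + 1)) ≤ 2 * V := by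
      have : |lv α (g 0 0) (g 0 1) (i + 1)| * (BB α (i + 1) * cq α (i + 1)) ≤ 2 * |g 0 1| := by
        rw [hg]; exact key_le hα _ _
      linarith
    have hv1 : |lv α (g 1 0) (g 1 1) (i + 1)| ≤ c * BB α (i + 1) :=
      (abs_lv_le hα _ _ _).trans (mul_le_mul_of_nonneg_right hcle hBi1.le)
    have hu1 : |lv α (g 1 0) (g 1 1) i| ≤ c * BB α i :=
      (abs_lv_le hα _ _ _).trans (mul_le_mul_of_nonneg_right hcle hBi.le)
    have hW : (!![0, 0; pq α i, 2] : Matrix (Fin 2) (Fin 2) ℤ) 1 0 ≠ 0 := by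
      simp; omega
    obtain ⟨v, hv0, hv⟩ := (exists_form α hdet (i + 1) !![0, 0; pq α i, 2] hW (M + 1)).1
    refine ⟨v, hv0, ?_⟩
    have e0 : ∏ i, (symM (2 * (M + 1)) g).mulVec (fun j => (v j : ℝ)) i
      = ∏ j ∈ Finset.range (2 * (M + 1) + 1), ((C (qf !![0, 0; pq α i, 2]
          (lu α (g 0 0) (g 0 1) (i + 1)) (lv α (g 0 0) (g 0 1) (i + 1))) * X ^ 2
            + C (qp !![0, 0; pq α i, 2] (lu α (g 0 0) (g 0 1) (i + 1))
                (lv α (g 0 0) (g 0 1) (i + 1))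
                (lu α (g 1 0) (g 1 1) (i + 1)) (lv α (g 1 0) (g 1 1) (i + 1))) * X
            + C (qf !![0, 0; pq α i, 2] (lu α (g 1 0) (g 1 1) (i + 1))
                (lv α (g 1 0) (g 1 1) (i + 1))) : ℝ[X]) ^ (M + 1)).coeff j := by
      rw [Finset.prod_range]
      exact Finset.prod_congr rfl fun i _ => hv i
    rw [e0]
    have hue : lu α (g 1 0) (g 1 1) (i + 1) = lv α (g 1 0) (g 1 1) i := rfl
    have hve : lv α (g 1 0) (g 1 1) (i + 1)
        = lu α (g 1 0) (g 1 1) i - pq α i * lv α (g 1 0) (g 1 1) i := lv_succ _ _ _ _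
    rw [hue]
    have ha1' : (1 : ℝ) ≤ pq α i := by exact_mod_cast ha1
    have hqf : ∀ z w : ℝ, qf !![0, 0; pq α i, 2] z w = z * (pq α i * z + 2 * w) := by
      intro z w; simp [qf]; ring
    have hqp : ∀ z w z' w' : ℝ, qp !![0, 0; pq α i, 2] z w z' w'
        = 2 * (pq α i * (z * z') + (z * w' + z' * w)) := by
      intro z w z' w'; simp [qp]; ring
    rw [hqf, hqf, hqp]
    set a : ℝ := ((pq α i : ℤ) : ℝ)
    set x := cq α (i + 1)
    set v0 := lv α (g 0 0) (g 0 1) (i + 1)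
    set ui := lu α (g 1 0) (g 1 1) i
    set vi := lv α (g 1 0) (g 1 1) i
    set v1 := lv α (g 1 0) (g 1 1) (i + 1)
    set B := BB α (i + 1)
    set Bi := BB α i
    have hb : 0 < 6 * c * V := by positivity
    have hσ : 0 < (6 * c * V) / (3 * c ^ 2 * (Bi * B)) := by positivity
    have hv0x : (v0 * x) ^ 2 * B ^ 2 ≤ 4 * V ^ 2 := by
      have h1 : (|v0| * (B * x)) ^ 2 ≤ (2 * V) ^ 2 := by
        refine pow_le_pow_left₀ ?_ hk1 2
        positivity
      have h2 : (|v0| * (B * x)) ^ 2 = (v0 * x) ^ 2 * B ^ 2 := by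
        rw [mul_pow, sq_abs]; ring
      rw [h2] at h1
      nlinarith
    refine (prod_coeff_mid hb hη0 hη1 hσ ?_ ?_ ?_ M).trans (le_of_eq (by ring))
    · rw [hu0]
      have h1 : x * v0 * (a * (x * v0) + 2 * v0) = v0 ^ 2 * x * (a * x + 2) := by ring
      have hx0 : 0 < x := by linarith
      have ha0 : 0 < a := by linarith
      rw [h1, abs_of_nonneg (by positivity)]
      have h2 : (6 * c * V) * ((6 * c * V) / (3 * c ^ 2 * (Bi * B))) = 12 * V ^ 2 / (Bi * B) := by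
        field_simp
        norm_num
      rw [h2, le_div_iff₀ (by positivity)]
      have h3 : v0 ^ 2 * x * (a * x + 2) ≤ 3 * a * (v0 * x) ^ 2 := by
        have h4 : a * x + 2 ≤ 3 * a * x := by nlinarith
        have h5 : 0 ≤ v0 ^ 2 * x := by positivity
        calc v0 ^ 2 * x * (a * x + 2) ≤ v0 ^ 2 * x * (3 * a * x) :=
              mul_le_mul_of_nonneg_left h4 h5
          _ = _ := by ring
      calc v0 ^ 2 * x * (a * x + 2) * (Bi * B) ≤ 3 * a * (v0 * x) ^ 2 * (Bi * B) := by gcongr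
        _ = 3 * ((v0 * x) ^ 2 * B) * (a * Bi) := by ring
        _ ≤ 3 * ((v0 * x) ^ 2 * B) * B := by gcongr
        _ = 3 * ((v0 * x) ^ 2 * B ^ 2) := by ring
        _ ≤ 12 * V ^ 2 := by linarith
    · rw [hu0, hve]
      have h1 : 2 * (a * (x * v0 * vi) + (x * v0 * (ui - a * vi) + vi * v0))
          = 2 * v0 * (x * ui + vi) := by ring
      rw [h1, abs_mul, abs_mul, abs_two]
      have h2 : 2 * |v0| * |x * ui + vi| ≤ 2 * |v0| * (2 * (c * Bi) * (1 / 2) ^ m) :=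
        mul_le_mul_of_nonneg_left hsm (by positivity)
      have h3 : |v0| * Bi ≤ 2 * V := by
        have h4 : |v0| * Bi ≤ |v0| * (B * x) := by
          have : Bi ≤ B * x := by nlinarith
          exact mul_le_mul_of_nonneg_left this (abs_nonneg _)
        linarith
      calc 2 * |v0| * |x * ui + vi| ≤ 2 * |v0| * (2 * (c * Bi) * (1 / 2) ^ m) := h2
        _ = (|v0| * Bi) * (4 * c * (1 / 2) ^ m) := by ring
        _ ≤ (2 * V) * (4 * c * (1 / 2) ^ m) := by gcongr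
        _ ≤ 6 * c * V * (2 * (1 / 2) ^ m) := by
            have : 0 ≤ c * V * (1 / 2) ^ m := by positivity
            nlinarith
    · rw [abs_mul]
      have h2 : (6 * c * V) / ((6 * c * V) / (3 * c ^ 2 * (Bi * B))) = 3 * c ^ 2 * (Bi * B) := by
        field_simp
      rw [h2]
      have h3 : |a * vi + 2 * v1| ≤ 3 * (c * B) := by
        refine (abs_add_le _ _).trans ?_
        rw [abs_mul, abs_mul, abs_two, abs_of_pos (by linarith : 0 < a)]
        have h4 : a * |vi| ≤ c * B := by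
          calc a * |vi| ≤ a * (c * Bi) := mul_le_mul_of_nonneg_left hu1 (by linarith)
            _ = c * (a * Bi) := by ring
            _ ≤ c * B := mul_le_mul_of_nonneg_left hBa (by linarith)
        linarith
      calc |vi| * |a * vi + 2 * v1| ≤ (c * Bi) * (3 * (c * B)) :=
            mul_le_mul hu1 h3 (abs_nonneg _) (by positivity)
        _ = _ := by ring

/-- small values of symmetric powers of even degree from palindromes -/
theorem pal_small {α : ℝ} (hα : Irrational α)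
    (hpal : ∀ N : ℕ, ∃ s L : ℕ, N ≤ L ∧ ∀ j < L, pq α (s + j) = pq α (s + (L - 1 - j)))
    (m : ℕ) (hm : 1 ≤ m)
    (g : Matrix (Fin 2) (Fin 2) ℝ) (hdet : g.det ≠ 0) (hg : g 0 0 = α * g 0 1)
    (n : ℕ) (hn : 0 < n) (G : Matrix (Fin n) (Fin n) ℝ) (ε : ℝ) (hε : 0 < ε) :
    ∃ x : Fin (2 * m + 1) × Fin n → ℤ, x ≠ 0 ∧
      |∏ i, ((symM (2 * m) g ⊗ₖ G) *ᵥ fun j => (x j : ℝ)) i| < ε := by
  refine kron_small _ (fun δ hδ => ?_) n hn G ε hε
  obtain ⟨D, hD, hmain⟩ := pal_bound hα g hdet hg m hm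
  obtain ⟨t, ht⟩ := exists_pow_lt_of_lt_one (show 0 < δ / D by positivity)
    (show (1 / 2 : ℝ) < 1 by norm_num)
  obtain ⟨s, L, hL, hp⟩ := hpal (4 * (t + 1) + 6)
  -- the centre
  have hcase : ∃ l : ℕ,
      ((∀ r < 2 * (t + 1) + 1, pq α (l + 1 + (2 * (t + 1) + 1) + r)
          = pq α (l + 1 + (2 * (t + 1) + 1 - 1 - r))) ∨
       (∀ r < 2 * (t + 1) + 1, pq α (l + 1 + (2 * (t + 1) + 1) + 1 + r)
          = pq α (l + 1 + (2 * (t + 1) + 1 - 1 - r)))) := by
    rcases Nat.even_or_odd' L with ⟨h, rfl | rfl⟩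
    · refine ⟨s + h - (2 * (t + 1) + 2), Or.inl fun r hr => ?_⟩
      have h1 := hp (h + r) (by omega)
      have e1 : s + h - (2 * (t + 1) + 2) + 1 + (2 * (t + 1) + 1) + r = s + (h + r) := by omega
      have e2 : s + h - (2 * (t + 1) + 2) + 1 + (2 * (t + 1) + 1 - 1 - r)
          = s + (2 * h - 1 - (h + r)) := by omega
      rw [e1, e2]
      exact h1
    · refine ⟨s + h - (2 * (t + 1) + 2), Or.inr fun r hr => ?_⟩
      have h1 := hp (h + 1 + r) (by omega)
      have e1 : s + h - (2 * (t + 1) + 2) + 1 + (2 * (t + 1) + 1) + 1 + r = s + (h + 1 + r) := by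
        omega
      have e2 : s + h - (2 * (t + 1) + 2) + 1 + (2 * (t + 1) + 1 - 1 - r)
          = s + (2 * h + 1 - 1 - (h + 1 + r)) := by omega
      rw [e1, e2]
      exact h1
  obtain ⟨l, hl⟩ := hcase
  obtain ⟨v, hv, hv2⟩ := hmain l (t + 1) hl (by omega)
  refine ⟨v, hv, lt_of_le_of_lt hv2 ?_⟩
  rw [lt_div_iff₀ hD] at ht
  rw [pow_succ]
  have : (0 : ℝ) < (1 / 2) ^ t := by positivity
  nlinarith

end Pool.Agent.N759.CFr
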